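import Pool.Agent.K3h71.PP.Nat2
import Pool.Agent.K3h16.PP.Jac
import Pool.Agent.K3h4.PP.Deg
import Pool.Agent.K3h4.PP.Irr
import Pool.Agent.K3h4.PP.Mem
import Pool.Agent.K3h24.PP.GenQ
import Pool.Agent.K3h25.PP.Card
import Pool.Agent.K3h17.PP.P3

/-! Pencils of plane curves: the rank. -/

set_option autoImplicit false
set_option linter.all false
set_option maxHeartbeats 800000

namespace Pool.Agent.K3h71.PP

open Polynomial Pool.Agent.R410.NG Pool.Agent.K3h82.CP

section
variable {M K : Type} [Field M] [CharZero M] [Field K] [CharZero K] [Algebra M K] {ω : K} {n : ℕ}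
  {A B : M[X][X]}

theorem irr_lead {a b : M[X]} (ha : a.Monic) (hab : IsCoprime a b) (hb : b ≠ 0)
    (hlt : b.natDegree < a.natDegree) (tr : Transcendental M ω)
    (htop : IntermediateField.adjoin M {ω} = ⊤) :
    Irreducible (a.map (algebraMap M K) + C ω * b.map (algebraMap M K)) := by
  let φ : M[X] →+* K := phA (M := M) M ω
  let _ : Algebra M[X] K := φ.toAlgebra
  have _ : IsFractionRing M[X] K := phA_frac M tr htop
  set f : M[X][X] := a.map C + C X * b.map C with hf
  have hfm : f.Monic := by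
    refine (ha.map C).add_of_left ?_
    have h1 : (a.map (C : M →+* M[X])).natDegree = a.natDegree :=
      natDegree_map_eq_of_injective C_injective _
    have h2 : (C X * b.map (C : M →+* M[X])).natDegree ≤ b.natDegree :=
      (natDegree_C_mul_le _ _).trans natDegree_map_le
    refine degree_lt_degree ?_
    rw [h1]
    exact h2.trans_lt hlt
  have h1 : Irreducible f := by
    have h2 : Irreducible (C b * X + C a : M[X][X]) :=
      irreducible_C_mul_X_add_C hb hab.symm.isRelPrime
    have h3 : Bivariate.swap f = C b * X + C a := by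
      rw [hf, map_add, map_mul, Bivariate.swap_map_C, Bivariate.swap_map_C, Bivariate.swap_X]
      ring
    rw [← h3] at h2
    exact (MulEquiv.irreducible_iff (Bivariate.swap (R := M))).1 h2
  have h4 := (hfm.irreducible_iff_irreducible_map_fraction_map (K := K)).1 h1
  have hφC : (algebraMap M[X] K).comp C = algebraMap M K := by
    refine RingHom.ext fun z => ?_
    show phA (M := M) M ω (C z) = _
    rw [phA_apply, Polynomial.map_C, aeval_C]
    rfl
  have hφX : algebraMap M[X] K X = ω := by
    show phA (M := M) M ω X = _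
    rw [phA_apply, Polynomial.map_X, aeval_X]
  rw [hf, Polynomial.map_add, Polynomial.map_mul, Polynomial.map_map, Polynomial.map_map,
    Polynomial.map_C, hφC, hφX] at h4
  exact h4

theorem ld_FF : ld n (FF A B ω) =
    (ld n A).map (algebraMap M K) + C ω * (ld n B).map (algebraMap M K) := by
  unfold FF up2
  rw [ld_add, ld_C_mul, coe_mapRingHom, ld_map, ld_map]

theorem FF_pl (hA : IsPl n A) (hB : IsLw n B) : IsPl n (FF A B ω) :=
  (hA.map _).add ((hB.map _).C_mul ω)

theorem FF_shift (t : M) : FF (A + C (C t) * B) B (ω - algebraMap M K t) = FF A B ω := by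
  unfold FF
  have h : up2 K (C (C t) : M[X][X]) = C (C (algebraMap M K t)) := by
    unfold up2
    rw [coe_mapRingHom, Polynomial.map_C, coe_mapRingHom, Polynomial.map_C]
  rw [map_add, map_mul, h, C_sub, C_sub]
  ring

theorem aeval_shift (t : M) (p : M[X]) :
    aeval (ω - algebraMap M K t) (p.comp (X + C t)) = aeval ω p := by
  rw [aeval_comp]
  congr 2
  rw [map_add, aeval_X, aeval_C, sub_add_cancel]

theorem gen_shift (t : M) (h : Gen M ω) : Gen M (ω - algebraMap M K t) := by
  intro z
  obtain ⟨p, q, hq, h1⟩ := h z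
  refine ⟨p.comp (X + C t), q.comp (X + C t), ?_, ?_⟩
  · rw [aeval_shift]
    exact hq
  · rw [aeval_shift, aeval_shift]
    exact h1

theorem tr_shift (t : M) (h : Transcendental M ω) : Transcendental M (ω - algebraMap M K t) := by
  intro h1
  apply h
  have h2 := h1.add (isAlgebraic_algebraMap t)
  rw [sub_add_cancel] at h2
  exact h2

theorem comp_deg (t : M) (g : M[X]) : (g.comp (X + C t)).natDegree = g.natDegree := by
  rw [natDegree_comp, natDegree_X_add_C, mul_one]

theorem mem_shift (hB : B ≠ 0) (t : M) (g : M[X]) :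
    mem (A + C (C t) * B) B (g.comp (X + C t)) = mem A B g := by
  let θ := algebraMap M[X][X] (FractionRing M[X][X])
  have hθb : θ B ≠ 0 := by
    rw [Ne, IsFractionRing.to_map_eq_zero_iff]
    exact hB
  have ht : θ (-A) / θ B * θ B = θ (-A) := div_mul_cancel₀ _ hθb
  have ht' : (θ (-A) / θ B - θ (C (C t))) * θ B = θ (-(A + C (C t) * B)) := by
    rw [sub_mul, ht, neg_add, map_add, map_neg θ (C (C t) * B), map_mul]
    ring
  apply IsFractionRing.injective M[X][X] (FractionRing M[X][X])
  show θ _ = θ _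
  unfold mem
  rw [comp_deg, hm_eval θ _ ht' (by rw [sg_deg, comp_deg]), hm_eval θ _ ht (by rw [sg_deg])]
  congr 1
  have h1 : sg (g.comp (X + C t)) = (sg g).comp (X + C (C (C t))) := by
    unfold sg
    rw [Polynomial.map_comp, Polynomial.map_add, Polynomial.map_X, Polynomial.map_C]
    rfl
  rw [h1, eval₂_comp]
  congr 1
  rw [eval₂_add, eval₂_X, eval₂_C, sub_add_cancel]

theorem comp_ne (t : M) {g : M[X]} (hg : g ≠ 0) : g.comp (X + C t) ≠ 0 := by
  intro h
  apply hg
  have h1 := congrArg (fun p : M[X] => p.comp (X - C t)) h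
  simp only [comp_assoc, add_comp, X_comp, C_comp, sub_add_cancel, comp_X, zero_comp] at h1
  exact h1

theorem comp_comp' (t : M) (g : M[X]) : (g.comp (X - C t)).comp (X + C t) = g := by
  rw [comp_assoc, sub_comp, X_comp, C_comp, add_sub_cancel_right, comp_X]

theorem comp_comp (t : M) (g : M[X]) : (g.comp (X + C t)).comp (X - C t) = g := by
  rw [comp_assoc, add_comp, X_comp, C_comp, sub_add_cancel, comp_X]

theorem comp_irr (t : M) {g : M[X]} : Irreducible (g.comp (X + C t)) ↔ Irreducible g := by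
  have h : g.comp (X + C t) = algEquivAevalXAddC t g := rfl
  rw [h]
  exact MulEquiv.irreducible_iff (algEquivAevalXAddC t)

theorem comp_dvd (t : M) {f g : M[X]} : f.comp (X + C t) ∣ g.comp (X + C t) ↔ f ∣ g := by
  constructor
  · rintro ⟨c, hc⟩
    refine ⟨c.comp (X - C t), ?_⟩
    have h1 := congrArg (fun p : M[X] => p.comp (X - C t)) hc
    simp only [mul_comp, comp_comp] at h1
    exact h1
  · rintro ⟨c, rfl⟩
    rw [mul_comp]
    exact dvd_mul_right _ _

theorem card_shift (t : M) {g : M[X]} (hg : g ≠ 0) :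
    Nat.card (Cm (C (g.comp (X + C t)) : M[X][X])) = Nat.card (Cm (C g : M[X][X])) := by
  have hg' := comp_ne t hg
  rw [Pool.Agent.K3h25.PP.card_cs (C_ne_zero.2 hg'), Pool.Agent.K3h25.PP.card_cs (C_ne_zero.2 hg),
    Pool.Agent.K3h25.PP.card_cs_C hg', Pool.Agent.K3h25.PP.card_cs_C hg]
  symm
  refine Finset.card_bij (fun Φ _ => Φ.comp (X + C t)) ?_ ?_ ?_
  · intro Φ hΦ
    rw [Pool.Agent.K3h25.PP.mem_ds hg] at hΦ
    rw [Pool.Agent.K3h25.PP.mem_ds hg']
    exact ⟨hΦ.1.comp_X_add_C t, (comp_irr t).2 hΦ.2.1, (comp_dvd t).2 hΦ.2.2⟩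
  · intro Φ _ Ψ _ h
    have h1 := congrArg (fun p : M[X] => p.comp (X - C t)) h
    simp only [comp_comp] at h1
    exact h1
  · intro Ψ hΨ
    rw [Pool.Agent.K3h25.PP.mem_ds hg'] at hΨ
    refine ⟨Ψ.comp (X - C t), ?_, comp_comp' t Ψ⟩
    rw [Pool.Agent.K3h25.PP.mem_ds hg]
    refine ⟨hΨ.1.comp_X_sub_C t, (comp_irr t).1 ?_, (comp_dvd t).1 ?_⟩
    · rw [comp_comp']
      exact hΨ.2.1
    · rw [comp_comp']
      exact hΨ.2.2

end

end Pool.Agent.K3h71.PP
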