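import Pool.Agent.K3h71.PP.Alg

/-! Pencils of plane curves: the rank. -/

set_option autoImplicit false
set_option linter.all false
set_option maxHeartbeats 800000

namespace Pool.Agent.K3h71.PP

open Polynomial Pool.Agent.R410.NG Pool.Agent.K3h82.CP

theorem t_Rank : StmRank := Pool.Agent.K3h17.PP.t_Rank Pool.Agent.K3h4.PP.t_Deg
  Pool.Agent.K3h24.PP.t_GenQ

theorem rank_eq {K : Type} [Field K] {F F' : K[X][X]} (h : F' = F) (r : ℕ)
    (i' : IsDedekindDomain (AdjoinRoot F')) (i : IsDedekindDomain (AdjoinRoot F))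
    (h' : Module.rank ℤ (Additive (ClassGroup (AdjoinRoot F'))) = r) :
    Module.rank ℤ (Additive (ClassGroup (AdjoinRoot F))) = r := by
  subst h
  exact h'

theorem up2_self {M : Type} [Field M] (A : M[X][X]) : up2 M A = A := by
  unfold up2
  rw [Algebra.algebraMap_self, mapRingHom_id, mapRingHom_id]
  rfl

section
variable {M : Type} [Field M] [CharZero M] {n : ℕ} {A B : M[X][X]}
  {A₀ : Type} [CommRing A₀] [IsDomain A₀] [Algebra A₀ M] [IsFractionRing A₀ M]
  {a b : A₀[X][X]} {P : A₀[X]} {t0 : A₀}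

theorem Nice.smooth (h : Nice n A B a b P t0) {L : Type} [Field L] [CharZero L] [Algebra M L]
    (θ : L) (hθ : aeval θ (P.map (algebraMap A₀ M)) ≠ 0) : Smooth n (FF A B θ) := by
  have h1 := h.sm L (phA (M := M) A₀ θ) (by rw [phA_apply]; exact hθ)
  have hφC : (phA (M := M) A₀ θ).comp C = (algebraMap M L).comp (algebraMap A₀ M) := by
    refine RingHom.ext fun z => ?_
    show phA (M := M) A₀ θ (C z) = _
    rw [phA_apply, Polynomial.map_C, aeval_C]
    rfl
  have hφX : phA (M := M) A₀ θ X = θ := by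
    rw [phA_apply, Polynomial.map_X, aeval_X]
  have hup : ∀ p : A₀[X][X], up2 L (mp A₀ M p) =
      p.map (mapRingHom ((phA (M := M) A₀ θ).comp C)) := by
    intro p
    unfold up2 mp
    rw [hφC, coe_mapRingHom, coe_mapRingHom, Polynomial.map_map, mapRingHom_comp]
  rw [penG_map, hφX, ← hup, ← hup, h.ha, h.hb] at h1
  exact h1

theorem Nice.irr0 (h : Nice n A B a b P t0) (hn : 0 < n) (hA : IsPl n A) (hB : IsLw n B) :
    Irreducible (A + C (C (algebraMap A₀ M t0)) * B) := by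
  have h1 : aeval (algebraMap A₀ M t0) (P.map (algebraMap A₀ M)) ≠ 0 := by
    rw [coe_aeval_eq_eval, eval_map, eval₂_at_apply]
    intro h2
    exact h.ht ((map_eq_zero_iff _ (IsFractionRing.injective A₀ M)).1 h2)
  have h2 : FF A B (algebraMap A₀ M t0) = A + C (C (algebraMap A₀ M t0)) * B := by
    unfold FF
    rw [up2_self, up2_self]
  rw [← h2]
  exact Pool.Agent.K3h4.PP.t_Irr M n _ hn (FF_pl hA hB) (h.smooth _ h1)

theorem not_dvd (hA : IsPl n A) (hB : IsLw n B) (hB0 : B ≠ 0) (t : M) :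
    ¬ (A + C (C t) * B) ∣ B := by
  have h1 := hA.add (hB.C_mul t)
  refine h1.monic.not_dvd_of_natDegree_lt hB0 ?_
  rw [h1.deg]
  exact hB.deg

theorem Nice.co (h : Nice n A B a b P t0) (hn : 0 < n) (hA : IsPl n A) (hB : IsLw n B)
    (hB0 : B ≠ 0) (p : M[X][X]) (hp : Irreducible p) (hpA : p ∣ A) (hpB : p ∣ B) : False := by
  have h1 : p ∣ A + C (C (algebraMap A₀ M t0)) * B := dvd_add hpA (hpB.mul_left _)
  have h2 := hp.associated_of_dvd (h.irr0 hn hA hB) h1
  exact not_dvd hA hB hB0 _ (h2.symm.dvd.trans hpB)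

theorem Nice.mems (h : Nice n A B a b P t0) (hn : 0 < n) (hA : IsPl n A) (hB : IsLw n B)
    (hB0 : B ≠ 0) (Φ : M[X]) (hΦ : Irreducible Φ) (hd : ¬ Φ ∣ P.map (algebraMap A₀ M)) :
    Irreducible (mem A B Φ) := by
  refine Pool.Agent.K3h4.PP.t_Mem M n A B Φ hA.monic hA.deg hB.deg hB0 hΦ fun θ hθ => ?_
  refine Pool.Agent.K3h4.PP.t_Irr _ n _ hn (FF_pl hA hB) (h.smooth θ ?_)
  intro h1
  apply hd
  have hint : IsIntegral M θ := Algebra.IsIntegral.isIntegral θ
  have h2 : Associated (minpoly M θ) Φ :=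
    (minpoly.irreducible hint).associated_of_dvd hΦ (minpoly.dvd M θ hθ)
  exact h2.symm.dvd.trans (minpoly.dvd M θ h1)

/-- **The algebraic side.** -/
theorem alg_side (h : Nice n A B a b P t0) (hn : 0 < n) (hA : IsPl n A) (hB : IsLw n B)
    (hlB : ld n B ≠ 0) (hco : IsCoprime (ld n A) (ld n B)) {K : Type} [Field K] [CharZero K]
    [Algebra M K] {ω : K} (tr : Transcendental M ω) (htop : IntermediateField.adjoin M {ω} = ⊤)
    [hD : IsDedekindDomain (AdjoinRoot (FF A B ω))] :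
    {Φ : M[X] | Φ.Monic ∧ Irreducible Φ ∧ Nat.card (Cm (mem A B Φ)) ≠ 1}.Finite ∧
    ∃ r : ℕ, (r : ℤ) = Nat.card (BPt A B) - Nat.card (Cm B) -
        ∑ᶠ Φ : {Φ : M[X] // Φ.Monic ∧ Irreducible Φ}, ((Nat.card (Cm (mem A B Φ.1)) : ℤ) - 1) ∧
      (r : ℤ) = Nat.card (BPt A B) - Nat.card (Cm (B * mem A B (P.map (algebraMap A₀ M)))) +
        Nat.card (Cm (C (P.map (algebraMap A₀ M)) : M[X][X])) ∧
      Module.rank ℤ (Additive (ClassGroup (AdjoinRoot (FF A B ω)))) = r := by
  have hB0 : B ≠ 0 := by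
    rintro rfl
    apply hlB
    ext j
    rw [ld_coeff, coeff_zero, coeff_zero, ite_self, coeff_zero]
  set PM : M[X] := P.map (algebraMap A₀ M) with hPM
  have hPM0 : PM ≠ 0 := (Polynomial.map_ne_zero_iff (IsFractionRing.injective A₀ M)).2 h.P0
  set t : M := algebraMap A₀ M t0 with ht
  obtain ⟨c1, c2⟩ := Pool.Agent.K3h25.PP.t_Card M n A B PM hA.monic hA.deg hB.deg hB0
    (h.co hn hA hB hB0) hPM0 (fun Φ hΦ hd => h.mems hn hA hB hB0 Φ hΦ hd)
  refine ⟨c1, ?_⟩
  have hA' : IsPl n (A + C (C t) * B) := hA.add (hB.C_mul t)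
  have hD' : IsDedekindDomain (AdjoinRoot (FF (A + C (C t) * B) B (ω - algebraMap M K t))) := by
    rw [FF_shift]
    exact hD
  have hlA := ld_monic hA
  have hPn : Pn n (A + C (C t) * B) B (ω - algebraMap M K t) :=
    { tr := tr_shift t tr
      ge := gen_shift t (fun z => gen_line htop z tr)
      hn := hn
      hA := hA'
      hB := hB
      hB0 := hB0
      irrA := h.irr0 hn hA hB
      irrL := by
        rw [FF_shift, ld_FF]
        exact irr_lead hlA.1 hco hlB (by rw [hlA.2]; exact ld_lt hB hn) tr htop }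
  obtain ⟨r, h1, h2⟩ := t_Rank M K n (A + C (C t) * B) B (ω - algebraMap M K t)
    (PM.comp (X + C t)) hPn (comp_ne t hPM0) (fun Φ hΦ hd => by
      rw [← comp_comp' t Φ, mem_shift hB0]
      refine h.mems hn hA hB hB0 _ ?_ ?_
      · rw [← comp_irr t, comp_comp']
        exact hΦ
      · intro h3
        apply hd
        rw [← comp_dvd t, comp_comp'] at h3
        exact h3)
  rw [mem_shift hB0, bpt_shift, card_shift t hPM0] at h1
  have h3 : (Nat.card (Cm (B * mem A B PM)) : ℤ) + r =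
      Nat.card (BPt A B) + Nat.card (Cm (C PM : M[X][X])) := by exact_mod_cast h1
  refine ⟨r, ?_, ?_, rank_eq (FF_shift t) r hD' hD h2⟩
  · linarith
  · linarith

end

end Pool.Agent.K3h71.PP
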