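import Pool.Agent.K3h71.PP.Defs

/-! Pencils of plane curves: basic lemmas. -/

set_option autoImplicit false
set_option linter.all false

namespace Pool.Agent.K3h71.PP

open Polynomial Pool.Agent.K3h82.CP

section
variable {R S : Type} [CommRing R] [CommRing S]

theorem ld_coeff (n : ℕ) (A : R[X][X]) (j : ℕ) :
    (ld n A).coeff j = if j ≤ n then (A.coeff j).coeff (n - j) else 0 := by
  unfold ld
  rw [finsetSum_coeff]
  by_cases h : j ≤ n
  · rw [if_pos h, Finset.sum_eq_single j]
    · rw [coeff_C_mul_X_pow, if_pos rfl]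
    · intro k _ hk
      rw [coeff_C_mul_X_pow, if_neg (Ne.symm hk)]
    · intro h'
      exact (h' (Finset.mem_range.2 (by omega))).elim
  · rw [if_neg h]
    refine Finset.sum_eq_zero fun k hk => ?_
    rw [coeff_C_mul_X_pow, if_neg]
    have := Finset.mem_range.1 hk
    omega

theorem ld_map (n : ℕ) (A : R[X][X]) (φ : R →+* S) :
    ld n (A.map (mapRingHom φ)) = (ld n A).map φ := by
  ext j
  rw [ld_coeff, coeff_map, coe_mapRingHom,
    show ((ld n A).map φ).coeff j = φ ((ld n A).coeff j) from coeff_map _ _, ld_coeff]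
  split_ifs
  · rw [coeff_map]
  · rw [map_zero]

theorem ld_add (n : ℕ) (A B : R[X][X]) : ld n (A + B) = ld n A + ld n B := by
  ext j
  rw [ld_coeff, coeff_add, coeff_add, coeff_add, ld_coeff, ld_coeff]
  split_ifs
  · rfl
  · rw [add_zero]

theorem ld_C_mul (n : ℕ) (c : R) (A : R[X][X]) : ld n (C (C c) * A) = C c * ld n A := by
  ext j
  rw [ld_coeff, coeff_C_mul, coeff_C_mul, coeff_C_mul, ld_coeff]
  split_ifs
  · rfl
  · rw [mul_zero]

theorem dX_coeff (A : R[X][X]) (j : ℕ) : (dX A).coeff j = derivative (A.coeff j) := by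
  unfold dX
  rw [Polynomial.sum_def, finsetSum_coeff]
  by_cases h : j ∈ A.support
  · rw [Finset.sum_eq_single j]
    · rw [coeff_C_mul_X_pow, if_pos rfl]
    · intro k _ hk
      rw [coeff_C_mul_X_pow, if_neg (Ne.symm hk)]
    · intro h'
      exact (h' h).elim
  · rw [notMem_support_iff.1 h, derivative_zero]
    refine Finset.sum_eq_zero fun k hk => ?_
    rw [coeff_C_mul_X_pow, if_neg]
    rintro rfl
    exact h hk

theorem dX_map (A : R[X][X]) (φ : R →+* S) :
    dX (A.map (mapRingHom φ)) = (dX A).map (mapRingHom φ) := by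
  ext1 j
  rw [dX_coeff, coeff_map, coeff_map, dX_coeff, coe_mapRingHom, derivative_map]

theorem IsPl.map [Nontrivial R] [Nontrivial S] {n : ℕ} {A : R[X][X]} (h : IsPl n A) (φ : R →+* S) :
    IsPl n (A.map (mapRingHom φ)) := by
  refine ⟨h.monic.map _, ?_, ?_⟩
  · rw [h.monic.natDegree_map, h.deg]
  · intro j hj
    rw [coeff_map, coe_mapRingHom] at hj ⊢
    have h1 : A.coeff j ≠ 0 := by
      intro h0
      rw [h0, Polynomial.map_zero] at hj
      exact hj rfl
    have h2 := h.tot j h1
    have h3 : ((A.coeff j).map φ).natDegree ≤ (A.coeff j).natDegree := natDegree_map_le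
    omega

theorem IsLw.map {n : ℕ} {A : R[X][X]} (h : IsLw n A) (φ : R →+* S) :
    IsLw n (A.map (mapRingHom φ)) := by
  refine ⟨natDegree_map_le.trans_lt h.deg, ?_⟩
  intro j hj
  rw [coeff_map, coe_mapRingHom] at hj ⊢
  have h1 : A.coeff j ≠ 0 := by
    intro h0
    rw [h0, Polynomial.map_zero] at hj
    exact hj rfl
  have h2 := h.tot j h1
  have h3 : ((A.coeff j).map φ).natDegree ≤ (A.coeff j).natDegree := natDegree_map_le
  omega

theorem IsLw.C_mul {n : ℕ} {A : R[X][X]} (h : IsLw n A) (c : R) : IsLw n (C (C c) * A) := by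
  refine ⟨(natDegree_C_mul_le _ _).trans_lt h.deg, ?_⟩
  intro j hj
  rw [coeff_C_mul] at hj ⊢
  have h1 : A.coeff j ≠ 0 := by
    intro h0
    rw [h0, mul_zero] at hj
    exact hj rfl
  have h2 := h.tot j h1
  have h3 : (C c * A.coeff j).natDegree ≤ (A.coeff j).natDegree := natDegree_C_mul_le _ _
  omega

theorem IsPl.add [Nontrivial R] {n : ℕ} {A B : R[X][X]} (h : IsPl n A) (hB : IsLw n B) :
    IsPl n (A + B) := by
  have hlt : B.degree < A.degree := by
    rw [degree_eq_natDegree h.monic.ne_zero, h.deg]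
    exact degree_le_natDegree.trans_lt (by exact_mod_cast hB.deg)
  refine ⟨h.monic.add_of_left hlt, ?_, ?_⟩
  · rw [natDegree_add_eq_left_of_degree_lt hlt, h.deg]
  · intro j hj
    rw [coeff_add] at hj ⊢
    by_cases hA0 : A.coeff j = 0
    · rw [hA0, zero_add] at hj ⊢
      exact hB.tot j hj
    · by_cases hB0 : B.coeff j = 0
      · rw [hB0, add_zero]
        exact h.tot j hA0
      · have h1 := h.tot j hA0
        have h2 := hB.tot j hB0
        have h3 := natDegree_add_le (A.coeff j) (B.coeff j)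
        omega

theorem Smooth.map {n : ℕ} {A : R[X][X]} (h : Smooth n A) (φ : R →+* S) :
    Smooth n (A.map (mapRingHom φ)) := by
  obtain ⟨⟨u, v, w, h1⟩, h2⟩ := h
  refine ⟨⟨u.map (mapRingHom φ), v.map (mapRingHom φ), w.map (mapRingHom φ), ?_⟩, ?_⟩
  · rw [dX_map, derivative_map, ← Polynomial.map_mul, ← Polynomial.map_mul, ← Polynomial.map_mul,
      ← Polynomial.map_add, ← Polynomial.map_add, h1, Polynomial.map_one]
  · rw [ld_map, derivative_map]
    exact h2.map (mapRingHom φ)

theorem Smooth.iso {n : ℕ} {A : R[X][X]} (e : R ≃+* S) :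
    Smooth n (A.map (mapRingHom (e : R →+* S))) ↔ Smooth n A := by
  constructor
  · intro h
    have h1 := h.map (e.symm : S →+* R)
    rw [Polynomial.map_map, mapRingHom_comp] at h1
    have h2 : (e.symm : S →+* R).comp (e : R →+* S) = RingHom.id R := by
      ext x
      simp
    rw [h2, mapRingHom_id, Polynomial.map_id] at h1
    exact h1
  · intro h
    exact h.map _

theorem ld_natDegree_le (n : ℕ) (A : R[X][X]) : (ld n A).natDegree ≤ n := by
  rw [natDegree_le_iff_coeff_eq_zero]
  intro j hj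
  rw [ld_coeff, if_neg (by omega)]

theorem ld_monic [Nontrivial R] {n : ℕ} {A : R[X][X]} (h : IsPl n A) :
    (ld n A).Monic ∧ (ld n A).natDegree = n := by
  have h1 : (ld n A).coeff n = 1 := by
    rw [ld_coeff, if_pos le_rfl, Nat.sub_self]
    have h2 := h.monic
    rw [Monic, leadingCoeff, h.deg] at h2
    rw [h2, coeff_one_zero]
  have h2 : (ld n A).natDegree = n := by
    apply le_antisymm (ld_natDegree_le n A)
    apply le_natDegree_of_ne_zero
    rw [h1]
    exact one_ne_zero
  exact ⟨by rw [Monic, leadingCoeff, h2, h1], h2⟩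

end

end Pool.Agent.K3h71.PP
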