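import Pool.Agent.K3h82.CP.Rnk

/-!
# Pencils of plane curves: definitions and statements

Plane curves of degree `n` are given by polynomials in `X, Y` (the outer variable of `R[X][X]` is `Y`) which are
monic in `Y` and of total degree `n`.
-/

set_option autoImplicit false

namespace Pool.Agent.K3h71.PP

open Polynomial Pool.Agent.K3h82.CP

section
variable {R : Type} [CommRing R]

/-- `A` is monic of degree `n` in `Y`, and of total degree `n`. -/
structure IsPl (n : ℕ) (A : R[X][X]) : Prop where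
  monic : A.Monic
  deg : A.natDegree = n
  tot : ∀ j, A.coeff j ≠ 0 → (A.coeff j).natDegree + j ≤ n

/-- `B` has degree less than `n` in `Y`, and total degree at most `n`. -/
structure IsLw (n : ℕ) (B : R[X][X]) : Prop where
  deg : B.natDegree < n
  tot : ∀ j, B.coeff j ≠ 0 → (B.coeff j).natDegree + j ≤ n

/-- The leading form (the terms of total degree `n`) of `A` at `X = 1`, a polynomial in `Y`. -/
noncomputable def ld (n : ℕ) (A : R[X][X]) : R[X] :=
  ∑ j ∈ Finset.range (n + 1), C ((A.coeff j).coeff (n - j)) * X ^ j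

/-- The partial derivative with respect to `X`. -/
noncomputable def dX (A : R[X][X]) : R[X][X] := A.sum fun j a => C (derivative a) * X ^ j

/-- The plane curve of degree `n` with the affine equation `A = 0` is smooth: the affine part is smooth, and
there are `n` different points at infinity. -/
def Smooth (n : ℕ) (A : R[X][X]) : Prop :=
  (∃ u v w : R[X][X], u * A + v * dX A + w * derivative A = 1) ∧
    IsCoprime (ld n A) (derivative (ld n A))

end

/-- The member of the pencil at the point `g(w) = 0`: `∑ g_k (-A)^k B^(deg g - k)`. -/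
noncomputable def mem {M : Type} [Field M] (A B : M[X][X]) (g : M[X]) : M[X][X] :=
  hm (-A) B g.natDegree (sg g)

/-- The irreducible factors up to associates. -/
abbrev Cm {M : Type} [Field M] (B : M[X][X]) : Type :=
  {p : Associates M[X][X] // Irreducible p ∧ p ∣ Associates.mk B}

/-! ### The bricks -/

/-- DEG: a curve with an irreducible leading form: the coordinate ring is a domain with constant units. -/
def StmDeg : Prop :=
  ∀ (K : Type) [Field K] (n : ℕ) (F : K[X][X]), 0 < n → IsPl n F → Irreducible (ld n F) →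
    Prime F ∧ ∀ u : AdjoinRoot F, IsUnit u → ∃ c : K, c ≠ 0 ∧ u = AdjoinRoot.mk F (C (C c))

/-- IRR: smooth plane curves are irreducible. -/
def StmIrr : Prop :=
  ∀ (K : Type) [Field K] (n : ℕ) (f : K[X][X]), 0 < n → IsPl n f → Smooth n f → Irreducible f

/-- JAC: the Jacobian criterion. -/
def StmJac : Prop :=
  ∀ (K : Type) [Field K] [CharZero K] (F : K[X][X]), F.Monic → 0 < F.natDegree →
    IsDedekindDomain (AdjoinRoot F) → ∃ u v w : K[X][X], u * F + v * dX F + w * derivative F = 1

/-- The primes over `β`, and elements `u j` which generate the principal ideals with support over `β`; the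
elements `u j`, `j` not in the image of `j0`, are multiplicatively independent modulo units, and the others
are dependent on them. -/
structure GensQ {D : Type} [CommRing D] [IsDedekindDomain D] {ι κ τ : Type} [Fintype ι] [Fintype κ]
    [Fintype τ] (P : ι → Ideal D) (β : D) (u : κ → D) (j0 : τ → κ) : Prop where
  ne : β ≠ 0
  prime : ∀ i, (P i).IsPrime
  mem : ∀ i, β ∈ P i
  inj : Function.Injective P
  all : ∀ Q : Ideal D, Q.IsPrime → β ∈ Q → ∃ i, P i = Q
  gen : ∀ Q : Ideal D, Q.IsPrime → Q ≠ 0 → β ∉ Q → ∃ (x : D) (I : Ideal D) (k : ℕ), x ≠ 0 ∧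
    Ideal.span {x} = Q * I ∧ I ∣ Ideal.span {β} ^ k
  dvd : ∀ j, u j ∣ β
  j0inj : Function.Injective j0
  ind : ∀ e f : κ → ℕ, (∀ t, e (j0 t) = 0 ∧ f (j0 t) = 0) → (∀ j, e j = 0 ∨ f j = 0) →
    Associated (∏ j, u j ^ e j) (∏ j, u j ^ f j) → e = 0 ∧ f = 0
  red : ∀ t, ∃ (m : ℕ) (e f : κ → ℕ), 0 < m ∧ (∀ t', e (j0 t') = 0 ∧ f (j0 t') = 0) ∧
    Associated (u (j0 t) ^ m * ∏ j, u j ^ e j) (∏ j, u j ^ f j)
  rel : ∀ (a : D) (N : ℕ), a ∣ β ^ N → ∃ e f : κ → ℕ,
    Associated (a * ∏ j, u j ^ e j) (∏ j, u j ^ f j)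

/-- GENQ: the rank of the class group. -/
def StmGenQ : Prop :=
  ∀ (D : Type) [CommRing D] [IsDedekindDomain D] (ι κ τ : Type) [Fintype ι] [Fintype κ] [Fintype τ]
    (P : ι → Ideal D) (β : D) (u : κ → D) (j0 : τ → κ), GensQ P β u j0 →
    Fintype.card κ - Fintype.card τ ≤ Fintype.card ι ∧
      Module.rank ℤ (Additive (ClassGroup D)) =
        ((Fintype.card ι - (Fintype.card κ - Fintype.card τ) : ℕ) : Cardinal)

/-- MEM: if the geometric members of the pencil over the point `Φ = 0` are irreducible, then so is the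
member over `M`. -/
def StmMem : Prop :=
  ∀ (M : Type) [Field M] [CharZero M] (n : ℕ) (A B : M[X][X]) (Φ : M[X]), A.Monic → A.natDegree = n →
    B.natDegree < n → B ≠ 0 → Irreducible Φ →
    (∀ θ : AlgebraicClosure M, aeval θ Φ = 0 → Irreducible (FF A B θ)) → Irreducible (mem A B Φ)

/-- WEIL: the Weil bound for smooth plane curves. -/
def StmWeil : Prop :=
  ∀ n : ℕ, 0 < n → ∃ c : ℝ, 0 ≤ c ∧ ∀ (F : Type) [Field F] [Finite F] (f : F[X][X]), IsPl n f →
    Smooth n f → ((n : ℕ) : F) ≠ 0 →
      |(Nat.card {z : F × F // evalEval z.1 z.2 f = 0} : ℝ) + Nat.card {y : F // eval y (ld n f) = 0} -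
        Nat.card F - 1| ≤ c * √(Nat.card F : ℝ)

/-- A pencil of plane curves of degree `n` without base points at infinity, with a generic parameter `ω` in
`K = M(ω)`. -/
structure Pn {M K : Type} [Field M] [Field K] [Algebra M K] (n : ℕ) (A B : M[X][X]) (ω : K) : Prop where
  tr : Transcendental M ω
  ge : Gen M ω
  hn : 0 < n
  hA : IsPl n A
  hB : IsLw n B
  hB0 : B ≠ 0
  irrA : Irreducible A
  irrL : Irreducible (ld n (FF A B ω))

/-- CARD: the number of the irreducible factors of the member at `P` and of `B`. -/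
def StmCard : Prop :=
  ∀ (M : Type) [Field M] [CharZero M] (n : ℕ) (A B : M[X][X]) (P : M[X]), A.Monic → A.natDegree = n →
    B.natDegree < n → B ≠ 0 → (∀ p, Irreducible p → p ∣ A → p ∣ B → False) → P ≠ 0 →
    (∀ Φ : M[X], Irreducible Φ → ¬ Φ ∣ P → Irreducible (mem A B Φ)) →
    {Φ : M[X] | Φ.Monic ∧ Irreducible Φ ∧ Nat.card (Cm (mem A B Φ)) ≠ 1}.Finite ∧
    (Nat.card (Cm (B * mem A B P)) : ℤ) - Nat.card (Cm (C P : M[X][X])) =
      Nat.card (Cm B) + ∑ᶠ Φ : {Φ : M[X] // Φ.Monic ∧ Irreducible Φ},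
        ((Nat.card (Cm (mem A B Φ.1)) : ℤ) - 1)

/-- RANK: the rank of the class group of the generic curve of the pencil. -/
def StmRank : Prop :=
  ∀ (M K : Type) [Field M] [CharZero M] [Field K] [CharZero K] [Algebra M K] (n : ℕ) (A B : M[X][X])
    (ω : K) (P : M[X]) [IsDedekindDomain (AdjoinRoot (FF A B ω))], Pn n A B ω → P ≠ 0 →
    (∀ Φ : M[X], Irreducible Φ → ¬ Φ ∣ P → Irreducible (mem A B Φ)) →
    ∃ r : ℕ, Nat.card (Cm (B * mem A B P)) + r =
        Nat.card (BPt A B) + Nat.card (Cm (C P : M[X][X])) ∧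
      Module.rank ℤ (Additive (ClassGroup (AdjoinRoot (FF A B ω)))) = r

end Pool.Agent.K3h71.PP
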