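import Pool.Agent.K3h71.PP.Sum3

/-! Pencils of plane curves: the smooth members. -/

set_option autoImplicit false
set_option linter.all false
set_option maxHeartbeats 400000

namespace Pool.Agent.K3h71.PP

open Polynomial Pool.Agent.K3h82.CP Pool.Agent.R410.NG

section
variable {R S : Type} [CommRing R] [CommRing S] [Nontrivial R] [Nontrivial S] {φ : R →+* S}
  (hφ : Function.Injective φ) {n : ℕ} {A : R[X][X]}
include hφ

theorem IsPl.reflect (h : IsPl n (A.map (mapRingHom φ))) : IsPl n A := by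
  have hi : Function.Injective (mapRingHom φ) := by
    rw [coe_mapRingHom]
    exact Polynomial.map_injective _ hφ
  have hc : ∀ j, ((A.map (mapRingHom φ)).coeff j).natDegree = (A.coeff j).natDegree := by
    intro j
    rw [coeff_map, coe_mapRingHom, natDegree_map_eq_of_injective hφ]
  refine ⟨Polynomial.monic_of_injective hi h.monic, ?_, ?_⟩
  · rw [← h.deg, natDegree_map_eq_of_injective hi]
  · intro j h1
    rw [← hc]
    refine h.tot j ?_
    rw [coeff_map, coe_mapRingHom]
    exact (Polynomial.map_ne_zero_iff hφ).2 h1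

theorem IsLw.reflect (h : IsLw n (A.map (mapRingHom φ))) : IsLw n A := by
  have hi : Function.Injective (mapRingHom φ) := by
    rw [coe_mapRingHom]
    exact Polynomial.map_injective _ hφ
  have hc : ∀ j, ((A.map (mapRingHom φ)).coeff j).natDegree = (A.coeff j).natDegree := by
    intro j
    rw [coeff_map, coe_mapRingHom, natDegree_map_eq_of_injective hφ]
  refine ⟨?_, ?_⟩
  · rw [← natDegree_map_eq_of_injective hi]
    exact h.deg
  · intro j h1
    rw [← hc]
    refine h.tot j ?_
    rw [coeff_map, coe_mapRingHom]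
    exact (Polynomial.map_ne_zero_iff hφ).2 h1

end

section
variable {R K : Type} [CommRing R] [IsDomain R] [Field K] [Algebra R K] [IsFractionRing R K]

theorem den1 (s : K[X]) : ∃ (c : R) (t : R[X]), c ≠ 0 ∧
    t.map (algebraMap R K) = C (algebraMap R K c) * s := by
  obtain ⟨c, t, hc, ht⟩ := den (A₀ := R) (C s : K[X][X])
  refine ⟨c, t.coeff 0, hc, ?_⟩
  have h1 := congrArg (fun p => p.coeff 0) ht
  simp only [coeff_C_mul, coeff_C_zero] at h1
  rw [← h1]
  unfold mp
  rw [coe_mapRingHom, coeff_map, coe_mapRingHom]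

/-- clearing denominators in the Jacobian criterion -/
theorem jac_den {G : R[X][X]} (h : ∃ u v w : K[X][X], u * mp R K G + v * dX (mp R K G) +
    w * derivative (mp R K G) = 1) :
    ∃ (P : R) (u v w : R[X][X]), P ≠ 0 ∧ u * G + v * dX G + w * derivative G = C (C P) := by
  obtain ⟨u, v, w, h⟩ := h
  obtain ⟨b1, t1, h1, e1⟩ := den (A₀ := R) u
  obtain ⟨b2, t2, h2, e2⟩ := den (A₀ := R) v
  obtain ⟨b3, t3, h3, e3⟩ := den (A₀ := R) w
  refine ⟨b1 * b2 * b3, C (C (b2 * b3)) * t1, C (C (b1 * b3)) * t2, C (C (b1 * b2)) * t3,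
    mul_ne_zero (mul_ne_zero h1 h2) h3, ?_⟩
  apply mp_inj (A₀ := R) (M := K)
  have k1 : mp R K (dX G) = dX (mp R K G) := (dX_map G _).symm
  have k2 : mp R K (derivative G) = derivative (mp R K G) := (derivative_map G _).symm
  simp only [map_add, map_mul, e1, e2, e3, k1, k2, mp_CC]
  linear_combination (C (C (algebraMap R K b1)) * C (C (algebraMap R K b2)) *
    C (C (algebraMap R K b3))) * h

/-- clearing denominators for two coprime polynomials -/
theorem cop_den {f g : R[X]} (h : IsCoprime (f.map (algebraMap R K)) (g.map (algebraMap R K))) :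
    ∃ (P : R) (s t : R[X]), P ≠ 0 ∧ s * f + t * g = C P := by
  obtain ⟨u, v, h⟩ := h
  obtain ⟨b1, t1, h1, e1⟩ := den1 (R := R) u
  obtain ⟨b2, t2, h2, e2⟩ := den1 (R := R) v
  refine ⟨b1 * b2, C b2 * t1, C b1 * t2, mul_ne_zero h1 h2, ?_⟩
  apply Polynomial.map_injective _ (IsFractionRing.injective R K)
  rw [Polynomial.map_add, Polynomial.map_mul, Polynomial.map_mul, Polynomial.map_mul,
    Polynomial.map_mul, e1, e2, Polynomial.map_C, Polynomial.map_C, Polynomial.map_C]
  simp only [map_mul, C_mul]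
  linear_combination (C (algebraMap R K b1) * C (algebraMap R K b2)) * h

/-- **The equation of the singular members.** -/
theorem exists_disc {n : ℕ} {G : R[X][X]}
    (h : ∃ u v w : K[X][X], u * mp R K G + v * dX (mp R K G) + w * derivative (mp R K G) = 1)
    (h' : IsCoprime (ld n (mp R K G)) (derivative (ld n (mp R K G)))) :
    ∃ P : R, P ≠ 0 ∧ ∀ (F : Type) [Field F] (φ : R →+* F), φ P ≠ 0 →
      Smooth n (G.map (mapRingHom φ)) := by
  obtain ⟨P0, u, v, w, h0, e0⟩ := jac_den h
  have h1 : IsCoprime ((ld n G).map (algebraMap R K)) ((derivative (ld n G)).map (algebraMap R K)) := by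
    rw [← derivative_map, ← ld_map]
    exact h'
  obtain ⟨P1, s, t, h1, e1⟩ := cop_den h1
  refine ⟨P0 * P1, mul_ne_zero h0 h1, ?_⟩
  intro F _ φ hφ
  rw [map_mul] at hφ
  have hφ0 := left_ne_zero_of_mul hφ
  have hφ1 := right_ne_zero_of_mul hφ
  constructor
  · refine ⟨C (C (φ P0)⁻¹) * u.map (mapRingHom φ), C (C (φ P0)⁻¹) * v.map (mapRingHom φ),
      C (C (φ P0)⁻¹) * w.map (mapRingHom φ), ?_⟩
    have e2 := congrArg (fun p => p.map (mapRingHom φ)) e0
    simp only [Polynomial.map_add, Polynomial.map_mul, ← dX_map, ← derivative_map,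
      Polynomial.map_C, coe_mapRingHom] at e2
    have e3 : (C (C (φ P0)⁻¹) : F[X][X]) * C (C (φ P0)) = 1 := by
      rw [← C_mul, ← C_mul, inv_mul_cancel₀ hφ0, C_1, C_1]
    linear_combination (C (C (φ P0)⁻¹) : F[X][X]) * e2 + e3
  · refine ⟨C (φ P1)⁻¹ * s.map φ, C (φ P1)⁻¹ * t.map φ, ?_⟩
    have e2 := congrArg (fun p => p.map φ) e1
    simp only [Polynomial.map_add, Polynomial.map_mul, ← derivative_map, Polynomial.map_C] at e2
    have e3 : (C (φ P1)⁻¹ : F[X]) * C (φ P1) = 1 := by
      rw [← C_mul, inv_mul_cancel₀ hφ1, C_1]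
    rw [ld_map]
    linear_combination (C (φ P1)⁻¹ : F[X]) * e2 + e3

end

end Pool.Agent.K3h71.PP
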