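import Pool.Agent.K3h71.PP.Alg2

/-! Pencils of plane curves: the nice model. -/

set_option autoImplicit false
set_option linter.all false
set_option maxHeartbeats 800000

namespace Pool.Agent.K3h71.PP

open Polynomial NumberField Pool.Agent.R410.NG Pool.Agent.K3h82.CP
open Pool.Agent.R410.LW (FG)

theorem t_Weil' : StmWeil := t_Weil Pool.Agent.K3h4.PP.t_Irr

section
variable {M K : Type} [Field M] [CharZero M] [Field K] [CharZero K] [Algebra M K] {ω : K} {n : ℕ}
  {A B : M[X][X]}

theorem ff_smooth (hn : 0 < n) (hA : IsPl n A) (hB : IsLw n B) (hlB : ld n B ≠ 0)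
    (hco : IsCoprime (ld n A) (ld n B)) (tr : Transcendental M ω)
    (htop : IntermediateField.adjoin M {ω} = ⊤) [hD : IsDedekindDomain (AdjoinRoot (FF A B ω))] :
    Smooth n (FF A B ω) := by
  have hF : IsPl n (FF A B ω) := FF_pl hA hB
  have hlA := ld_monic hA
  constructor
  · exact Pool.Agent.K3h16.PP.t_Jac K (FF A B ω) hF.monic (by rw [hF.deg]; exact hn) hD
  · rw [ld_FF]
    exact (irr_lead hlA.1 hco hlB (by rw [hlA.2]; exact ld_lt hB hn) tr htop).separable

/-- the smooth members of a model -/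
theorem disc_model (hs : Smooth n (FF A B ω)) (R : Type) [CommRing R] [IsDomain R] [Algebra R K]
    [IsFractionRing R K] {G : R[X][X]} (hGK : G.map (mapRingHom (algebraMap R K)) = FF A B ω) :
    ∃ P : R, P ≠ 0 ∧ ∀ (F : Type) [Field F] (φ : R →+* F), φ P ≠ 0 →
      Smooth n (G.map (mapRingHom φ)) := by
  have h1 : mp R K G = FF A B ω := hGK
  refine exists_disc (K := K) ?_ ?_
  · rw [h1]
    exact hs.1
  · rw [h1]
    exact hs.2

theorem exists_nice {k : Type} [Field k] [NumberField k] [Algebra k M] (hM : FG M)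
    (hs : Smooth n (FF A B ω)) (tr : Transcendental M ω)
    (htop : IntermediateField.adjoin M {ω} = ⊤) :
    ∃ A₀ : Subalgebra ℤ M, Algebra.FiniteType ℤ A₀ ∧ IsFractionRing A₀ M ∧
      (∀ z : 𝓞 k, algebraMap k M z ∈ A₀) ∧
      ∃ (a b : A₀[X][X]) (P : A₀[X]) (t0 : A₀), Nice n A B a b P t0 := by
  classical
  obtain ⟨A₀, hA, hft, hfr, hAk⟩ := exists_ringk (k := k) hM (cfs A ∪ cfs B)
  have hAinj : Function.Injective (algebraMap A₀ M) := IsFractionRing.injective A₀ M
  obtain ⟨a, ha⟩ := lift_mp A₀ A (fun t ht => hA t (Finset.mem_union_left _ ht))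
  obtain ⟨b, hb⟩ := lift_mp A₀ B (fun t ht => hA t (Finset.mem_union_right _ ht))
  let φ : A₀[X] →+* K := phA (M := M) A₀ ω
  let _ : Algebra A₀[X] K := φ.toAlgebra
  have _ : IsFractionRing A₀[X] K := phA_frac A₀ tr htop
  have hG : (penG a b).map (mapRingHom (algebraMap A₀[X] K)) = FF A B ω := by
    show (penG a b).map (mapRingHom φ) = _
    have hφC : φ.comp C = (algebraMap M K).comp (algebraMap A₀ M) := by
      refine RingHom.ext fun z => ?_
      show phA (M := M) A₀ ω (C z) = _
      rw [phA_apply, Polynomial.map_C, aeval_C]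
      rfl
    have hφX : φ X = ω := by
      show phA (M := M) A₀ ω X = _
      rw [phA_apply, Polynomial.map_X, aeval_X]
    have hup : ∀ p : A₀[X][X], up2 K (mp A₀ M p) = p.map (mapRingHom (φ.comp C)) := by
      intro p
      unfold up2 mp
      rw [hφC, coe_mapRingHom, coe_mapRingHom, Polynomial.map_map, mapRingHom_comp]
    rw [penG_map, hφX, ← hup, ← hup, ha, hb]
    rfl
  obtain ⟨P, hP0, hP⟩ := disc_model hs A₀[X] hG
  have hinf : Infinite A₀ := by
    have : CharZero A₀ := charZero_of_injective_algebraMap (R := ℤ) (by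
      intro x y hxy
      have h1 : algebraMap A₀ M (algebraMap ℤ A₀ x) = algebraMap A₀ M (algebraMap ℤ A₀ y) := by
        rw [hxy]
      rw [← IsScalarTower.algebraMap_apply, ← IsScalarTower.algebraMap_apply] at h1
      exact (algebraMap ℤ M).injective_int h1)
    exact CharZero.infinite A₀
  obtain ⟨t0, ht0⟩ : ∃ t0 : A₀, eval t0 P ≠ 0 := by
    by_contra h
    push Not at h
    exact hP0 (Polynomial.funext fun t => by rw [h t, eval_zero])
  exact ⟨A₀, hft, hfr, hAk, a, b, P, t0, ⟨ha, hb, hP0, hP, ht0⟩⟩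

end

end Pool.Agent.K3h71.PP
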