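import Pool.Agent.K3h71.PP.Jd
import Pool.Agent.K3h82.CP.Fin

/-! Pencils of plane curves: the natural average. -/

set_option autoImplicit false
set_option linter.all false
set_option maxHeartbeats 400000

namespace Pool.Agent.K3h71.PP

open Polynomial NumberField IsDedekindDomain Filter Topology Pool.Agent.R410.NG
open Pool.Agent.K3h82.CP
open Pool.Agent.R410.LW (FG ev ev_C ev_X ev_eq)
open Pool.Agent.R410.BS (cF cF_le cB cB_nonneg hom_le)

section
variable {A₀ : Type} [CommRing A₀] [Nontrivial A₀] {n : ℕ} {a b : A₀[X][X]}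

theorem penG_pl (ha : IsPl n a) (hb : IsLw n b) : IsPl n (penG a b) :=
  (ha.map C).add ((hb.map C).C_mul X)

theorem wP_pen (ha : IsPl n a) (hb : IsLw n b) {P : A₀[X]}
    (hs : ∀ (F : Type) [Field F] (φ : A₀[X] →+* F), φ P ≠ 0 →
      Smooth n ((penG a b).map (mapRingHom φ))) {F : Type} [Field F] [Finite F]
    (hF : ((n : ℕ) : F) ≠ 0) (φ : A₀[X] →+* F) (hφ : φ P ≠ 0) :
    wP n F (fun j => (tupP n (penG a b) j).map φ) = cntF n F ((penG a b).map (mapRingHom φ)) := by
  have e : (fun j => (tupP n (penG a b) j).map φ) = tupP n ((penG a b).map (mapRingHom φ)) :=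
    funext fun j => tupP_map φ _ j
  have h1 : IsPl n ((penG a b).map (mapRingHom φ)) := (penG_pl ha hb).map φ
  unfold wP cntF
  rw [e, plOf_tupP h1, if_pos ⟨hF, h1, hs F φ hφ⟩]

end

section
variable {M : Type} [Field M] {A₀ : Type} [CommRing A₀] [IsDomain A₀] [Algebra A₀ M]
  [IsFractionRing A₀ M] {n : ℕ} {a b : A₀[X][X]}

theorem mp_memR (P : A₀[X]) :
    mp A₀ M (memR a b P) = mem (mp A₀ M a) (mp A₀ M b) (P.map (algebraMap A₀ M)) := by
  unfold memR mem
  rw [hm_map, map_neg, natDegree_map_eq_of_injective (IsFractionRing.injective A₀ M)]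
  congr 1
  unfold sgR sg
  rw [Polynomial.map_map, Polynomial.map_map]
  congr 1
  refine RingHom.ext fun x => ?_
  show mp A₀ M (C (C x)) = C (C (algebraMap A₀ M x))
  rw [mp_CC]

theorem mp_C (P : A₀[X]) : mp A₀ M (C P) = C (P.map (algebraMap A₀ M)) := by
  unfold mp
  rw [coe_mapRingHom, Polynomial.map_C, coe_mapRingHom]

theorem ld_lt {R : Type} [CommRing R] {n : ℕ} {B : R[X][X]} (h : IsLw n B) (hn : 0 < n) :
    (ld n B).natDegree < n := by
  have h1 : (ld n B).natDegree ≤ n := ld_natDegree_le n B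
  have h2 : (ld n B).coeff n = 0 := by
    rw [ld_coeff, if_pos le_rfl, coeff_eq_zero_of_natDegree_lt h.deg, coeff_zero]
  rcases h1.lt_or_eq with h3 | h3
  · exact h3
  · exfalso
    have h4 : ld n B = 0 := by
      rw [← leadingCoeff_eq_zero, leadingCoeff, h3, h2]
    rw [h4, natDegree_zero] at h3
    omega

theorem infR_ne (M : Type) [Field M] {A₀ : Type} [CommRing A₀] [IsDomain A₀] [Algebra A₀ M]
    [IsFractionRing A₀ M] {n : ℕ} {a b : A₀[X][X]} (hn : 0 < n) (ha : IsPl n a) (hb : IsLw n b)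
    (hb0 : ld n b ≠ 0) {P : A₀[X]} (hP : P ≠ 0) : infR n a b P ≠ 0 := by
  have hi := IsFractionRing.injective A₀ M
  intro h0
  set LA : M[X] := (ld n a).map (algebraMap A₀ M) with hLA
  set LB : M[X] := (ld n b).map (algebraMap A₀ M) with hLB
  have m1 := ld_monic ha
  have k1 : (LA.map C : M[X][X]).Monic := (m1.1.map _).map _
  have k2 : (LA.map C : M[X][X]).natDegree = n := by
    rw [natDegree_map_eq_of_injective C_injective, hLA, natDegree_map_eq_of_injective hi, m1.2]
  have k3 : (LB.map C : M[X][X]).natDegree < n := by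
    rw [natDegree_map_eq_of_injective C_injective, hLB, natDegree_map_eq_of_injective hi]
    exact ld_lt hb hn
  have k4 : (LB.map C : M[X][X]) ≠ 0 := by
    rw [Polynomial.map_ne_zero_iff C_injective, hLB, Polynomial.map_ne_zero_iff hi]
    exact hb0
  have k5 : P.map (algebraMap A₀ M) ≠ 0 := (Polynomial.map_ne_zero_iff hi).2 hP
  have k6 := hm_ne k1 k2 k3 k4 k5 (N := P.natDegree)
    (by rw [natDegree_map_eq_of_injective hi])
  apply k6
  have e := congrArg (fun p : A₀[X] => (p.map (algebraMap A₀ M)).map (C : M →+* M[X])) h0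
  simp only [Polynomial.map_zero] at e
  have e1 : ∀ p : A₀[X], (p.map (algebraMap A₀ M)).map (C : M →+* M[X]) =
      mapRingHom ((C : M →+* M[X]).comp (algebraMap A₀ M)) p := by
    intro p
    rw [coe_mapRingHom, Polynomial.map_map]
  refine Eq.trans ?_ e
  rw [e1 (infR n a b P)]
  unfold infR
  rw [hm_map, map_neg, ← e1 (ld n a), ← e1 (ld n b)]
  congr 1
  unfold sg
  rw [Polynomial.map_map, Polynomial.map_map]
  congr 1
  refine RingHom.ext fun x => ?_
  show C (C (algebraMap A₀ M x)) =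
    mapRingHom ((C : M →+* M[X]).comp (algebraMap A₀ M)) (C x)
  rw [coe_mapRingHom, Polynomial.map_C]
  rfl

end

/-- the data of a nice model -/
structure Nice (n : ℕ) {A₀ M : Type} [CommRing A₀] [Field M] [Algebra A₀ M] (A B : M[X][X])
    (a b : A₀[X][X]) (P : A₀[X]) (t0 : A₀) : Prop where
  ha : mp A₀ M a = A
  hb : mp A₀ M b = B
  P0 : P ≠ 0
  sm : ∀ (F : Type) [Field F] (φ : A₀[X] →+* F), φ P ≠ 0 →
    Smooth n ((penG a b).map (mapRingHom φ))
  ht : eval t0 P ≠ 0

theorem bpt_shift {M : Type} [Field M] (A B : M[X][X]) (t : M) :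
    Nat.card (BPt (A + C (C t) * B) B) = Nat.card (BPt A B) := by
  refine Nat.card_congr (Equiv.subtypeEquivRight fun P => and_congr_right fun _ => ?_)
  constructor
  · rintro ⟨h1, h2⟩
    exact ⟨(Ideal.add_mem_iff_left P (P.mul_mem_left _ h2)).1 h1, h2⟩
  · rintro ⟨h1, h2⟩
    exact ⟨(Ideal.add_mem_iff_left P (P.mul_mem_left _ h2)).2 h1, h2⟩

end Pool.Agent.K3h71.PP
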