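import Pool.Agent.K3h71.PP.Nat

/-! Pencils of plane curves: the natural average. -/

set_option autoImplicit false
set_option linter.all false
set_option maxHeartbeats 800000

namespace Pool.Agent.K3h71.PP

open Polynomial NumberField IsDedekindDomain Filter Topology Pool.Agent.R410.NG
open Pool.Agent.K3h82.CP
open Pool.Agent.R410.LW (FG ev ev_C ev_X ev_eq)
open Pool.Agent.R410.BS (cF cF_le cB cB_nonneg hom_le)

/-- the arithmetic of the error terms -/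
theorem err_le {D E C1 C3 q x y z : ℝ} {d : ℕ} (hD : 0 ≤ D) (hE : 0 ≤ E) (hq : 1 ≤ q)
    (hC1 : 0 ≤ C1) (hC3 : 0 ≤ C3) (hz : z ≤ D * x + (D + E) * y) (hx : x ≤ C1 * q ^ d)
    (hy : y ≤ C3 * q ^ d) : z * √q ≤ (D * C1 + (D + E) * C3) * q ^ (d + 1) := by
  have hq0 : 0 ≤ q := by linarith
  have hqd : 0 ≤ q ^ d := by positivity
  have h1 : z ≤ (D * C1 + (D + E) * C3) * q ^ d := by
    have h2 := mul_le_mul_of_nonneg_left hx hD
    have h3 := mul_le_mul_of_nonneg_left hy (add_nonneg hD hE)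
    calc z ≤ D * x + (D + E) * y := hz
      _ ≤ D * (C1 * q ^ d) + (D + E) * (C3 * q ^ d) := add_le_add h2 h3
      _ = _ := by ring
  have hs : √q ≤ q := by
    rw [Real.sqrt_le_left hq0]
    nlinarith
  have hs0 : 0 ≤ √q := Real.sqrt_nonneg _
  have hK : 0 ≤ D * C1 + (D + E) * C3 := by positivity
  calc z * √q ≤ ((D * C1 + (D + E) * C3) * q ^ d) * √q := mul_le_mul_of_nonneg_right h1 hs0
    _ ≤ ((D * C1 + (D + E) * C3) * q ^ d) * q :=
      mul_le_mul_of_nonneg_left hs (mul_nonneg hK hqd)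
    _ = _ := by ring

theorem bd_le {D E C1 C2 C3 C4 q x1 x2 x3 y s : ℝ} {d : ℕ} (hD : 0 ≤ D) (hE : 0 ≤ E)
    (hq : 1 ≤ q) (hC1 : 0 ≤ C1) (hC2 : 0 ≤ C2) (hC3 : 0 ≤ C3) (hC4 : 0 ≤ C4) (p1 : 0 ≤ x1)
    (p2 : 0 ≤ x2) (p3 : 0 ≤ x3) (h1 : x1 ≤ C1 * q ^ d) (h2 : x2 ≤ C2 * q ^ (d + 1))
    (h3 : x3 ≤ C3 * q ^ (d + 1)) (h4 : y ≤ C4 * q ^ d)
    (hs : |s - (q * x1 - x2 + x3)| ≤ D * x1 + (D + E) * y) :
    |s| ≤ (C1 + C2 + C3 + (D * C1 + (D + E) * C4)) * q ^ (d + 1) := by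
  have hq0 : 0 ≤ q := by linarith
  have hqd : 0 ≤ q ^ d := by positivity
  have e1 : q * x1 ≤ C1 * q ^ (d + 1) := by
    calc q * x1 ≤ q * (C1 * q ^ d) := mul_le_mul_of_nonneg_left h1 hq0
      _ = _ := by ring
  have hz := abs_nonneg (s - (q * x1 - x2 + x3))
  have e2 : |s - (q * x1 - x2 + x3)| ≤ (D * C1 + (D + E) * C4) * q ^ (d + 1) := by
    have h5 : |s - (q * x1 - x2 + x3)| ≤ (D * C1 + (D + E) * C4) * q ^ d := by
      have h6 := mul_le_mul_of_nonneg_left h1 hD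
      have h7 := mul_le_mul_of_nonneg_left h4 (add_nonneg hD hE)
      calc _ ≤ D * x1 + (D + E) * y := hs
        _ ≤ D * (C1 * q ^ d) + (D + E) * (C4 * q ^ d) := add_le_add h6 h7
        _ = _ := by ring
    have h8 : q ^ d ≤ q ^ (d + 1) := pow_le_pow_right₀ hq (Nat.le_succ d)
    exact h5.trans (mul_le_mul_of_nonneg_left h8 (by positivity))
  have e3 := abs_le.1 e2
  have p4 : 0 ≤ q * x1 := mul_nonneg hq0 p1
  have hC1' : 0 ≤ C1 * q ^ (d + 1) := by positivity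
  have hC2' : 0 ≤ C2 * q ^ (d + 1) := by positivity
  have hC3' : 0 ≤ C3 * q ^ (d + 1) := by positivity
  rw [abs_le]
  constructor
  · linarith [e3.1]
  · linarith [e3.2]

section
variable {M K : Type} [Field M] [CharZero M] [Field K] [CharZero K] [Algebra M K] {ω : K}
  {n : ℕ} {A B : M[X][X]}

open Classical in
/-- **The natural average.** -/
theorem natural_pl {k : Type} [Field k] [NumberField k] [Algebra k M] {d : ℕ}
    (hd : Algebra.trdeg ℚ M = d) (hW : StmWeil) (hn : 0 < n) (hA : IsPl n A) (hB : IsLw n B)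
    (hB0 : ld n B ≠ 0) (hco : IsCoprime (ld n A) (ld n B)) (tr : Transcendental M ω)
    (htop : IntermediateField.adjoin M {ω} = ⊤)
    (A₀ : Subalgebra ℤ M) [hft : Algebra.FiniteType ℤ A₀] [hfr : IsFractionRing A₀ M]
    (hAk : ∀ z : 𝓞 k, algebraMap k M z ∈ A₀)
    {a b : A₀[X][X]} {P : A₀[X]} {t0 : A₀} (hN : Nice n A B a b P t0)
    (hirr : Irreducible (A + C (C (algebraMap A₀ M t0)) * B))
    (hndvd : ¬ (A + C (C (algebraMap A₀ M t0)) * B) ∣ B)
    (R : Type) [CommRing R] [IsDomain R] [Algebra.FiniteType ℤ R] [Algebra R K]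
    [IsFractionRing R K] [Algebra (𝓞 k) R]
    (hk : ∀ z : 𝓞 k, algebraMap R K (algebraMap (𝓞 k) R z) = algebraMap M K (algebraMap k M z))
    {G : R[X][X]} (hG : IsPl n G) (hGK : G.map (mapRingHom (algebraMap R K)) = FF A B ω)
    {N : R} (hNn : N ≠ 0) (S : Finset (HeightOneSpectrum (𝓞 k))) :
    Tendsto (Pool.Agent.W353.FB.average S fun v => avg (wP n) (tupP n G) N (d + 1) v) atTop
      (𝓝 ((Nat.card (BPt A B) : ℝ) - Nat.card (Cm (B * mem A B (P.map (algebraMap A₀ M)))) +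
        Nat.card (Cm (C (P.map (algebraMap A₀ M)) : M[X][X])))) := by
  have hAinj : Function.Injective (algebraMap A₀ M) := IsFractionRing.injective A₀ M
  have hac : IsPl n a := IsPl.reflect hAinj (by
    have := hA
    rw [← hN.ha] at this
    exact this)
  have hbc : IsLw n b := IsLw.reflect hAinj (by
    have := hB
    rw [← hN.hb] at this
    exact this)
  have hldA : (ld n a).map (algebraMap A₀ M) = ld n A := by
    rw [← ld_map, ← hN.ha]
    rfl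
  have hldB : (ld n b).map (algebraMap A₀ M) = ld n B := by
    rw [← ld_map, ← hN.hb]
    rfl
  have hb0 : ld n b ≠ 0 := by
    intro h0
    apply hB0
    rw [← hldB, h0, Polynomial.map_zero]
  -- the ring of the line
  let φ : A₀[X] →+* K := phA (M := M) A₀ ω
  let _ : Algebra A₀[X] K := φ.toAlgebra
  have _ : IsFractionRing A₀[X] K := phA_frac A₀ tr htop
  have htr := trdeg_line hd tr htop
  let ρ : 𝓞 k →+* A₀[X] := C.comp (rho hAk)
  let _ : Algebra (𝓞 k) A₀[X] := ρ.toAlgebra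
  have hft' : Algebra.FiniteType ℤ A₀[X] := inferInstance
  have hft'' := Pool.Agent.R410.LW.ft_int _ hft'
  set PM : M[X] := P.map (algebraMap A₀ M) with hPM
  have hPM0 : PM ≠ 0 := (Polynomial.map_ne_zero_iff hAinj).2 hN.P0
  -- the points
  have hpa : mp A₀ M (a + C (C t0) * b) = A + C (C (algebraMap A₀ M t0)) * B := by
    rw [map_add, map_mul, mp_CC, hN.ha, hN.hb]
  have hBne : B ≠ 0 := by
    rintro rfl
    apply hB0
    ext j
    rw [ld_coeff, coeff_zero, coeff_zero, ite_self, coeff_zero]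
  have hpb : mp A₀ M (b * memR a b P) = B * mem A B PM := by
    rw [map_mul, mp_memR, hN.ha, hN.hb]
  have hpm0 : mem A B PM ≠ 0 := hm_ne hA.monic hA.deg hB.deg hBne hPM0 le_rfl
  have hf1 : Finite (Cmp (B * mem A B PM)) := cmp_finite (mul_ne_zero hBne hpm0)
  have hf2 : Finite (Cmp (C PM : M[X][X])) := cmp_finite (C_ne_zero.2 hPM0)
  let _ : Fintype (Cmp (B * mem A B PM)) := Fintype.ofFinite _
  let _ : Fintype (Cmp (C PM : M[X][X])) := Fintype.ofFinite _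
  obtain ⟨c1, hc1, hP1⟩ := asy_pts (A₀ := A₀) hd hirr hndvd hpa hN.hb
  obtain ⟨c2, hc2, hP2⟩ := asy_div (A₀ := A₀) hd (mul_ne_zero hBne hpm0)
    (fac_cmp (B * mem A B PM)) hpb
  obtain ⟨c3, hc3, hP3⟩ := asy_div (A₀ := A₀) hd (C_ne_zero.2 hPM0)
    (fac_cmp (C PM : M[X][X])) (mp_C P)
  -- the other bad primes
  obtain ⟨c5, s5, t5, hc5, e5⟩ := cop_den (R := A₀) (K := M) (f := ld n a) (g := ld n b)
    (by rw [hldA, hldB]; exact hco)
  set I : A₀[X] := ld n b * infR n a b P with hI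
  have hI0 : I ≠ 0 := mul_ne_zero hb0 (infR_ne M hn hac hbc hb0 hN.P0)
  have hlI : I.leadingCoeff ≠ 0 := leadingCoeff_ne_zero.2 hI0
  have hlP : P.leadingCoeff ≠ 0 := leadingCoeff_ne_zero.2 hN.P0
  set w : A₀ := P.leadingCoeff * (c5 * I.leadingCoeff) with hw
  have hw0 : w ≠ 0 := mul_ne_zero hlP (mul_ne_zero hc5 hlI)
  set u : A₀ := c1 * (c2 * (c3 * w)) with hu
  have hu0 : u ≠ 0 := mul_ne_zero hc1 (mul_ne_zero hc2 (mul_ne_zero hc3 hw0))
  have hP1' := hP1 (c2 * (c3 * w)) (mul_ne_zero hc2 (mul_ne_zero hc3 hw0))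
  have hP2' := hP2 (c1 * (c3 * w)) (mul_ne_zero hc1 (mul_ne_zero hc3 hw0))
  have hP3' := hP3 (c1 * (c2 * w)) (mul_ne_zero hc1 (mul_ne_zero hc2 hw0))
  rw [show c2 * (c1 * (c3 * w)) = u by rw [hu]; ring] at hP2'
  rw [show c3 * (c1 * (c2 * w)) = u by rw [hu]; ring] at hP3'
  rw [← hu] at hP1'
  rw [bpt_shift] at hP1'
  rw [← Nat.card_eq_fintype_card] at hP2' hP3'
  have hn0 : n ≠ 0 := hn.ne'
  have hdiv : ∀ {F : Type} [Field F] (ψ : A₀ →+* F), ψ u ≠ 0 →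
      ψ P.leadingCoeff ≠ 0 ∧ ψ c5 ≠ 0 ∧ ψ I.leadingCoeff ≠ 0 := by
    intro F _ ψ h
    rw [hu, hw] at h
    simp only [map_mul, mul_ne_zero_iff] at h
    exact ⟨h.2.2.2.1, h.2.2.2.2.1, h.2.2.2.2.2⟩
  have hg : ∀ {F : Type} [Field F] (ψ : A₀ →+* F), ψ u ≠ 0 → ∀ y,
      ¬ (eval₂ ψ y (ld n a) = 0 ∧ eval₂ ψ y (ld n b) = 0) := by
    intro F _ ψ h y hy
    apply (hdiv ψ h).2.1
    have h1 := congrArg (eval₂ ψ y) e5
    rw [eval₂_add, eval₂_mul, eval₂_mul, hy.1, hy.2, mul_zero, mul_zero, add_zero, eval₂_C] at h1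
    exact h1.symm
  -- the sum over the points
  have key : ∀ (F : Type) [Field F] [Finite F] [Fintype (A₀[X] →+* F)], ((n : ℕ) : F) ≠ 0 →
      ∀ Q : (A₀ →+* F) → Prop, (∀ ψ, Q ψ → ψ u ≠ 0) →
      |(∑ φ : A₀[X] →+* F, if Q (φ.comp C) ∧ φ P ≠ 0 then
          wP n F (fun j => (tupP n (penG a b) j).map φ) else 0) -
        ((Nat.card F : ℝ) * Nat.card {φ : A₀[X][X] →+* F // Q ((φ.comp C).comp C) ∧
            (φ a = 0 ∧ φ b = 0)} -
          Nat.card {φ : A₀[X][X] →+* F // Q ((φ.comp C).comp C) ∧ φ (b * memR a b P) = 0} +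
          Nat.card {φ : A₀[X][X] →+* F // Q ((φ.comp C).comp C) ∧ φ (C P) = 0})| ≤
        (P.natDegree : ℝ) * Nat.card {φ : A₀[X][X] →+* F // Q ((φ.comp C).comp C) ∧
            (φ a = 0 ∧ φ b = 0)} +
          ((P.natDegree : ℝ) + I.natDegree) * Nat.card {ψ : A₀ →+* F // Q ψ} := by
    intro F _ _ _ hF Q hQ
    let _ := Fintype.ofFinite F
    have hfA : Finite (A₀ →+* F) := inferInstance
    let _ := Fintype.ofFinite (A₀ →+* F)
    have hfXX : Finite (A₀[X][X] →+* F) := Finite.of_equiv _ (planeE (A₀ := A₀) (F := F)).symm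
    let _ := Fintype.ofFinite (A₀[X][X] →+* F)
    have e1 := sum_all n a b P Q (fun ψ hψ => hg ψ (hQ ψ hψ)) (D := P.natDegree)
      (E := I.natDegree) (fun ψ hψ => by
        simp only [eval_map]
        exact card_roots_le ψ (hdiv ψ (hQ ψ hψ)).1)
      (fun ψ hψ => card_roots_le ψ (hdiv ψ (hQ ψ hψ)).2.2)
    refine le_trans (le_of_eq ?_) e1
    congr 2
    refine Finset.sum_congr rfl fun φ _ => ?_
    by_cases h : Q (φ.comp C) ∧ φ P ≠ 0
    · rw [if_pos h, if_pos h, wP_pen hac hbc hN.sm hF φ h.2]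
    · rw [if_neg h, if_neg h]
  -- the numbers of points
  have cA : ∀ (F : Type) [Field F] [Finite F] (Q : (A₀ →+* F) → Prop), (∀ ψ, Q ψ → ψ u ≠ 0) →
      (Nat.card {φ : A₀[X][X] →+* F // Q ((φ.comp C).comp C) ∧ (φ a = 0 ∧ φ b = 0)} : ℝ) ≤
        Nat.card {φ : A₀[X][X] →+* F // φ (C (C u)) ≠ 0 ∧
          φ (a + C (C t0) * b) = 0 ∧ φ b = 0} := by
    intro F _ _ Q hQ
    let _ := Fintype.ofFinite F
    have hfA : Finite (A₀ →+* F) := inferInstance
    have hfXX : Finite (A₀[X][X] →+* F) := Finite.of_equiv _ (planeE (A₀ := A₀) (F := F)).symm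
    exact_mod_cast Nat.card_le_card_of_injective (fun x : {φ : A₀[X][X] →+* F //
      Q ((φ.comp C).comp C) ∧ (φ a = 0 ∧ φ b = 0)} => (⟨x.1, hQ _ x.2.1, by
        rw [map_add, map_mul, x.2.2.1, x.2.2.2, mul_zero, add_zero], x.2.2.2⟩ :
        {φ : A₀[X][X] →+* F // φ (C (C u)) ≠ 0 ∧ φ (a + C (C t0) * b) = 0 ∧ φ b = 0}))
      (fun x y hxy => Subtype.ext (congrArg (fun z => z.1) hxy))
  have cB' : ∀ (F : Type) [Field F] [Finite F] (Q : (A₀ →+* F) → Prop), (∀ ψ, Q ψ → ψ u ≠ 0) →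
      ∀ z : A₀[X][X], (Nat.card {φ : A₀[X][X] →+* F // Q ((φ.comp C).comp C) ∧ φ z = 0} : ℝ) ≤
        Nat.card {φ : A₀[X][X] →+* F // φ (C (C u)) ≠ 0 ∧ φ z = 0} := by
    intro F _ _ Q hQ z
    let _ := Fintype.ofFinite F
    have hfA : Finite (A₀ →+* F) := inferInstance
    have hfXX : Finite (A₀[X][X] →+* F) := Finite.of_equiv _ (planeE (A₀ := A₀) (F := F)).symm
    exact_mod_cast Nat.card_le_card_of_injective (fun x : {φ : A₀[X][X] →+* F //
      Q ((φ.comp C).comp C) ∧ φ z = 0} => (⟨x.1, hQ _ x.2.1, x.2.2⟩ :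
        {φ : A₀[X][X] →+* F // φ (C (C u)) ≠ 0 ∧ φ z = 0}))
      (fun x y hxy => Subtype.ext (congrArg (fun z => z.1) hxy))
  obtain ⟨C1, N1, hC1, hN1, b1⟩ := asy_le hP1'
  obtain ⟨C2, N2, hC2, hN2, b2⟩ := asy_le hP2'
  obtain ⟨C3, N3, hC3, hN3, b3⟩ := asy_le hP3'
  obtain ⟨C4, hC4, b4⟩ := hom_le (R := A₀) (K := M) hAinj hd.le
  have cH : ∀ (F : Type) [Field F] [Finite F] (Q : (A₀ →+* F) → Prop),
      (Nat.card {ψ : A₀ →+* F // Q ψ} : ℝ) ≤ C4 * (Nat.card F : ℝ) ^ d := by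
    intro F _ _ Q
    have hfA : Finite (A₀ →+* F) := inferInstance
    refine le_trans ?_ (b4 F)
    exact_mod_cast Nat.card_le_card_of_injective (fun x : {ψ : A₀ →+* F // Q ψ} => x.1)
      Subtype.val_injective
  have hφu : ∀ {F : Type} [Field F] (φ : A₀[X] →+* F), φ (C u * P) ≠ 0 ↔
      ((φ.comp C) u ≠ 0 ∧ φ P ≠ 0) := by
    intro F _ φ
    rw [map_mul, mul_ne_zero_iff]
    rfl
  have nat0 : ∀ (j : ℕ), (0 : ℝ) ≤ (j : ℝ) := fun j => Nat.cast_nonneg j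
  -- the asymptotic value
  have h0 : Asy (fun F _ _ => sT (wP n) (tupP n (penG a b)) (C u * P) F) (d + 1)
      ((Nat.card (BPt A B) : ℝ) - Nat.card (Cm (B * mem A B PM)) +
        Nat.card (Cm (C PM : M[X][X]))) := by
    have t4 := (hP1'.mulq.add hP2'.neg).add hP3'
    rw [← sub_eq_add_neg] at t4
    refine t4.near ⟨(P.natDegree : ℝ) * C1 + ((P.natDegree : ℝ) + I.natDegree) * C4, n * N1,
      by positivity, mul_ne_zero hn0 hN1, fun F _ _ hF => ?_⟩
    rw [Nat.cast_mul] at hF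
    have hnF := left_ne_zero_of_mul hF
    have hF1 := right_ne_zero_of_mul hF
    let _ := Fintype.ofFinite F
    have hfA : Finite (A₀ →+* F) := inferInstance
    let _ := Fintype.ofFinite (A₀ →+* F)
    have hfX : Finite (A₀[X] →+* F) := inferInstance
    let _ := Fintype.ofFinite (A₀[X] →+* F)
    have e1 := key F hnF (fun ψ => ψ u ≠ 0) (fun ψ h => h)
    have e3 : (Nat.card {φ : A₀[X][X] →+* F // φ (C (C u)) ≠ 0 ∧
          φ (a + C (C t0) * b) = 0 ∧ φ b = 0} : ℝ) =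
        Nat.card {φ : A₀[X][X] →+* F // ((φ.comp C).comp C) u ≠ 0 ∧ (φ a = 0 ∧ φ b = 0)} := by
      congr 1
      refine Nat.card_congr (Equiv.subtypeEquivRight fun φ => and_congr_right fun _ => ?_)
      constructor
      · rintro ⟨h1, h2⟩
        rw [map_add, map_mul, h2, mul_zero, add_zero] at h1
        exact ⟨h1, h2⟩
      · rintro ⟨h1, h2⟩
        exact ⟨by rw [map_add, map_mul, h1, h2, mul_zero, add_zero], h2⟩
    have e4 := cA F (fun ψ => ψ u ≠ 0) (fun ψ h => h)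
    have hq : (1 : ℝ) ≤ (Nat.card F : ℝ) := by exact_mod_cast Nat.card_pos
    refine err_le (nat0 _) (nat0 _) hq hC1 hC4 ?_ (e4.trans (b1 F hF1)) (cH F (fun ψ => ψ u ≠ 0))
    rw [e3, ← sub_eq_add_neg, sT_eq]
    refine le_trans (le_of_eq ?_) e1
    congr 2
    exact Finset.sum_congr rfl fun φ _ => ite_eq' _ _ (hφu φ) _
  obtain ⟨κ', iκ, L, iL, nL, α, hα, C0, N0, hC0, hN0, hasy⟩ := h0
  obtain ⟨cw, hw'⟩ := isWt_wP hW hn
  have hgB : ∀ j : Fin n, (tupP n G j).map (algebraMap R K) =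
      (tupP n (penG a b) j).map (algebraMap A₀[X] K) := by
    intro j
    rw [tupP_map, tupP_map, hGK]
    congr 1
    show _ = (penG a b).map (mapRingHom φ)
    have hφC : φ.comp C = (algebraMap M K).comp (algebraMap A₀ M) := by
      refine RingHom.ext fun z => ?_
      show phA (M := M) A₀ ω (C z) = _
      rw [phA_apply, Polynomial.map_C, aeval_C]
      rfl
    have hφX : φ X = ω := by
      show phA (M := M) A₀ ω X = _
      rw [phA_apply, Polynomial.map_X, aeval_X]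
    have hup : ∀ p : A₀[X][X], up2 K (mp A₀ M p) = p.map (mapRingHom (φ.comp C)) := by
      intro p
      unfold up2 mp
      rw [hφC, coe_mapRingHom, coe_mapRingHom, Polynomial.map_map, mapRingHom_comp]
    rw [penG_map, hφX, ← hup, ← hup, hN.ha, hN.hb]
    rfl
  have hrho : (algebraMap R K).comp (algebraMap (𝓞 k) R) =
      (algebraMap A₀[X] K).comp (algebraMap (𝓞 k) A₀[X]) := by
    refine RingHom.ext fun z => ?_
    show algebraMap R K (algebraMap (𝓞 k) R z) = phA (M := M) A₀ ω (C (rho hAk z))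
    rw [hk, phA_apply, Polynomial.map_C, aeval_C]
    rfl
  refine natural_models hw' (e := d + 1) htr.le hrho (g' := tupP n (penG a b)) hgB
    (fun j => tupP_spec hG j) hNn (N' := (C u * P : A₀[X])) (mul_ne_zero (C_ne_zero.2 hu0) hN.P0)
    L α hα ?_ ?_ S
  · -- the bound
    refine ⟨C1 + C2 + C3 + ((P.natDegree : ℝ) * C1 + ((P.natDegree : ℝ) + I.natDegree) * C4),
      n * (N1 * (N2 * N3)), by positivity,
      mul_ne_zero hn0 (mul_ne_zero hN1 (mul_ne_zero hN2 hN3)), ?_⟩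
    intro F _ _ hF ψ₀
    rw [Nat.cast_mul, Nat.cast_mul, Nat.cast_mul] at hF
    have hnF := left_ne_zero_of_mul hF
    have hF1 := left_ne_zero_of_mul (right_ne_zero_of_mul hF)
    have hF2 := left_ne_zero_of_mul (right_ne_zero_of_mul (right_ne_zero_of_mul hF))
    have hF3 := right_ne_zero_of_mul (right_ne_zero_of_mul (right_ne_zero_of_mul hF))
    let _ := Fintype.ofFinite F
    have hfA : Finite (A₀ →+* F) := inferInstance
    let _ := Fintype.ofFinite (A₀ →+* F)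
    have hfX : Finite (A₀[X] →+* F) := inferInstance
    let _ := Fintype.ofFinite (A₀[X] →+* F)
    have e1 := key F hnF (fun ψ => ψ.comp (rho hAk) = ψ₀ ∧ ψ u ≠ 0) (fun ψ h => h.2)
    have e4 := (cA F (fun ψ => ψ.comp (rho hAk) = ψ₀ ∧ ψ u ≠ 0) (fun ψ h => h.2)).trans
      (b1 F hF1)
    have e5' := (cB' F (fun ψ => ψ.comp (rho hAk) = ψ₀ ∧ ψ u ≠ 0) (fun ψ h => h.2)
      (b * memR a b P)).trans (b2 F hF2)
    have e6 := (cB' F (fun ψ => ψ.comp (rho hAk) = ψ₀ ∧ ψ u ≠ 0) (fun ψ h => h.2)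
      (C P)).trans (b3 F hF3)
    have e7 := cH F (fun ψ => ψ.comp (rho hAk) = ψ₀ ∧ ψ u ≠ 0)
    have hq : (1 : ℝ) ≤ (Nat.card F : ℝ) := by exact_mod_cast Nat.card_pos
    have e8 : |sR (wP n) (algebraMap (𝓞 k) A₀[X]) (tupP n (penG a b)) (C u * P) F ψ₀ -
        ((Nat.card F : ℝ) * Nat.card {φ : A₀[X][X] →+* F //
          (((φ.comp C).comp C).comp (rho hAk) = ψ₀ ∧ ((φ.comp C).comp C) u ≠ 0) ∧
            (φ a = 0 ∧ φ b = 0)} -
          Nat.card {φ : A₀[X][X] →+* F // (((φ.comp C).comp C).comp (rho hAk) = ψ₀ ∧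
            ((φ.comp C).comp C) u ≠ 0) ∧ φ (b * memR a b P) = 0} +
          Nat.card {φ : A₀[X][X] →+* F // (((φ.comp C).comp C).comp (rho hAk) = ψ₀ ∧
            ((φ.comp C).comp C) u ≠ 0) ∧ φ (C P) = 0})| ≤
        (P.natDegree : ℝ) * Nat.card {φ : A₀[X][X] →+* F //
          (((φ.comp C).comp C).comp (rho hAk) = ψ₀ ∧ ((φ.comp C).comp C) u ≠ 0) ∧
            (φ a = 0 ∧ φ b = 0)} +
          ((P.natDegree : ℝ) + I.natDegree) *
            Nat.card {ψ : A₀ →+* F // ψ.comp (rho hAk) = ψ₀ ∧ ψ u ≠ 0} := by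
      rw [sR_eq]
      refine le_trans (le_of_eq ?_) e1
      congr 2
      refine Finset.sum_congr rfl fun φ _ => ite_eq' _ _ ?_ _
      rw [hφu]
      show (φ.comp (C.comp (rho hAk)) = ψ₀ ∧ (φ.comp C) u ≠ 0 ∧ φ P ≠ 0) ↔
        (((φ.comp C).comp (rho hAk) = ψ₀ ∧ (φ.comp C) u ≠ 0) ∧ φ P ≠ 0)
      rw [RingHom.comp_assoc, and_assoc]
    exact bd_le (nat0 _) (nat0 _) hq hC1 hC2 hC3 hC4 (nat0 _) (nat0 _) (nat0 _) e4 e5' e6 e7 e8
  · exact ⟨C0, N0, hC0, hN0, fun F _ _ hF => hasy F hF⟩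

end

end Pool.Agent.K3h71.PP
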