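import Pool.Agent.K3h71.PP.Wgt
import Pool.Agent.K3h82.CP.Sm

/-! Pencils of plane curves: the sum over the members over a finite field. -/

set_option autoImplicit false
set_option linter.all false
set_option maxHeartbeats 400000

namespace Pool.Agent.K3h71.PP

open Polynomial Pool.Agent.K3h82.CP Pool.Agent.R410.NG
open Pool.Agent.R410.LW (ev ev_C ev_X ev_eq)

open Classical in
theorem fib {F : Type} [Field F] [Fintype F] {Z : Type} [Fintype Z] (a b : Z → F) {P : F[X]}
    {D : ℕ} (hD : P.natDegree ≤ D) :
    (∑ t : F, if eval t P ≠ 0 then (Nat.card {z // a z + t * b z = 0} : ℝ) else 0) =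
      (Nat.card Z : ℝ) - Nat.card {z // b z = 0 ∨ hm (-(a z)) (b z) D P = 0} +
        ((Nat.card F : ℝ) - Nat.card {t : F // eval t P = 0}) *
          Nat.card {z // a z = 0 ∧ b z = 0} := by
  have h1 : ∀ t : F, (if eval t P ≠ 0 then (Nat.card {z // a z + t * b z = 0} : ℝ) else 0) =
      ∑ z : Z, if eval t P ≠ 0 ∧ a z + t * b z = 0 then (1 : ℝ) else 0 := by
    intro t
    by_cases ht : eval t P ≠ 0
    · rw [if_pos ht, card_ind]
      refine Finset.sum_congr rfl fun z _ => ?_
      by_cases hz : a z + t * b z = 0
      · rw [if_pos hz, if_pos ⟨ht, hz⟩]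
      · rw [if_neg hz, if_neg (fun h => hz h.2)]
    · rw [if_neg ht]
      symm
      exact Finset.sum_eq_zero fun z _ => if_neg fun h => ht h.1
  rw [Finset.sum_congr rfl fun t _ => h1 t, Finset.sum_comm]
  have hr : (Nat.card F : ℝ) - Nat.card {t : F // eval t P = 0} =
      ∑ t : F, if eval t P ≠ 0 then (1 : ℝ) else 0 := by
    rw [card_ind, Nat.card_eq_fintype_card, ← Finset.card_univ, Finset.cast_card,
      ← Finset.sum_sub_distrib]
    refine Finset.sum_congr rfl fun t _ => ?_
    by_cases ht : eval t P = 0
    · rw [if_pos ht, if_neg (fun h => h ht), sub_self]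
    · rw [if_neg ht, if_pos ht, sub_zero]
  have h2 : ∀ z : Z, (∑ t : F, if eval t P ≠ 0 ∧ a z + t * b z = 0 then (1 : ℝ) else 0) =
      1 - (if b z = 0 ∨ hm (-(a z)) (b z) D P = 0 then (1 : ℝ) else 0) +
        ((Nat.card F : ℝ) - Nat.card {t : F // eval t P = 0}) *
          (if a z = 0 ∧ b z = 0 then (1 : ℝ) else 0) := by
    intro z
    by_cases hb : b z = 0
    · rw [if_pos (Or.inl hb), sub_self, zero_add]
      by_cases ha : a z = 0
      · rw [if_pos ⟨ha, hb⟩, mul_one, hr]
        refine Finset.sum_congr rfl fun t _ => ?_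
        rw [ha, hb, mul_zero, add_zero]
        simp only [and_true]
      · rw [if_neg (fun h => ha h.1), mul_zero]
        refine Finset.sum_eq_zero fun t _ => if_neg fun h => ?_
        rw [hb, mul_zero, add_zero] at h
        exact ha h.2
    · rw [if_neg (fun h : a z = 0 ∧ b z = 0 => hb h.2), mul_zero, add_zero]
      have e0 : hm (-(a z)) (b z) D P = b z ^ D * eval (-(a z) / b z) P := by
        have := hm_eval (a := -(a z)) (b := b z) (N := D) (σ := P) (RingHom.id F) (-(a z) / b z)
          (by rw [RingHom.id_apply, RingHom.id_apply, div_mul_cancel₀ _ hb]) hD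
        rw [RingHom.id_apply, RingHom.id_apply] at this
        exact this
      have e1 : (b z = 0 ∨ hm (-(a z)) (b z) D P = 0) ↔ eval (-(a z) / b z) P = 0 := by
        rw [e0, mul_eq_zero, pow_eq_zero_iff']
        constructor
        · rintro (h | h | h)
          · exact (hb h).elim
          · exact (hb h.1).elim
          · exact h
        · intro h
          exact Or.inr (Or.inr h)
      rw [Finset.sum_eq_single (-(a z) / b z)]
      · have e2 : a z + -(a z) / b z * b z = 0 := by
          rw [div_mul_cancel₀ _ hb, add_neg_cancel]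
        by_cases hP : eval (-(a z) / b z) P = 0
        · rw [if_pos (e1.2 hP), if_neg (fun h => h.1 hP), sub_self]
        · rw [if_neg (fun h => hP (e1.1 h)), if_pos ⟨hP, e2⟩, sub_zero]
      · intro t _ ht
        refine if_neg fun h => ht ?_
        rw [eq_div_iff hb]
        linear_combination h.2
      · intro h
        exact (h (Finset.mem_univ _)).elim
  rw [Finset.sum_congr rfl fun z _ => h2 z, Finset.sum_add_distrib, Finset.sum_sub_distrib,
    ← Finset.mul_sum, ← card_ind, ← card_ind]
  congr 2
  rw [Nat.card_eq_fintype_card, ← Finset.card_univ, Finset.cast_card]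

end Pool.Agent.K3h71.PP
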