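import Pool.Agent.K3h71.PP.Sum

/-! Pencils of plane curves: the sum over the points of the line over a ring. -/

set_option autoImplicit false
set_option linter.all false
set_option maxHeartbeats 400000

namespace Pool.Agent.K3h71.PP

open Polynomial Pool.Agent.K3h82.CP Pool.Agent.R410.NG
open Pool.Agent.R410.LW (ev ev_C ev_X ev_eq)

section
variable {A₀ : Type} [CommRing A₀]

/-- constants -/
noncomputable def sgR (P : A₀[X]) : A₀[X][X][X] := P.map ((C : A₀[X] →+* A₀[X][X]).comp C)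

/-- the member at `P` -/
noncomputable def memR (a b : A₀[X][X]) (P : A₀[X]) : A₀[X][X] := hm (-a) b P.natDegree (sgR P)

/-- the member at `P` of the pencil of the leading forms -/
noncomputable def infR (n : ℕ) (a b : A₀[X][X]) (P : A₀[X]) : A₀[X] :=
  hm (-(ld n a)) (ld n b) P.natDegree (P.map C)

/-- minus the trace -/
noncomputable def cntF (n : ℕ) (F : Type) [Field F] (g : F[X][X]) : ℝ :=
  (Nat.card {z : F × F // evalEval z.1 z.2 g = 0} : ℝ) + Nat.card {y : F // eval y (ld n g) = 0} -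
    Nat.card F - 1

variable {F : Type} [Field F]

theorem ev_memR (ψ : A₀ →+* F) (z : F × F) (a b : A₀[X][X]) (P : A₀[X]) :
    ev ψ z (memR a b P) = hm (-(ev ψ z a)) (ev ψ z b) P.natDegree (P.map ψ) := by
  unfold memR
  rw [hm_map, map_neg]
  congr 1
  unfold sgR
  rw [Polynomial.map_map]
  congr 1
  refine RingHom.ext fun x => ?_
  show ev ψ z (C (C x)) = ψ x
  rw [ev_C, eval₂_C]

theorem ev_infR (n : ℕ) (ψ : A₀ →+* F) (y : F) (a b : A₀[X][X]) (P : A₀[X]) :
    eval₂ ψ y (infR n a b P) =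
      hm (-(eval₂ ψ y (ld n a))) (eval₂ ψ y (ld n b)) P.natDegree (P.map ψ) := by
  unfold infR
  have := hm_map (a := -(ld n a)) (b := ld n b) (N := P.natDegree) (σ := P.map C)
    (eval₂RingHom ψ y)
  rw [map_neg, coe_eval₂RingHom] at this
  rw [this]
  congr 1
  rw [Polynomial.map_map]
  congr 1
  refine RingHom.ext fun x => ?_
  show eval₂ ψ y (C x) = ψ x
  rw [eval₂_C]

open Classical in
theorem card_above [Fintype F] [Fintype (A₀ →+* F)] [Fintype (A₀[X][X] →+* F)]
    (Q : (A₀ →+* F) → Prop) (R' : (A₀[X][X] →+* F) → Prop) :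
    (Nat.card {φ : A₀[X][X] →+* F // Q ((φ.comp C).comp C) ∧ R' φ} : ℝ) =
      ∑ ψ : A₀ →+* F, if Q ψ then (Nat.card {z : F × F // R' (ev ψ z)} : ℝ) else 0 := by
  rw [card_ind]
  refine (Fintype.sum_equiv (planeE (A₀ := A₀) (F := F)) _ (fun w =>
    if Q w.1 ∧ R' (ev w.1 w.2) then (1 : ℝ) else 0) (fun φ => ?_)).trans ?_
  · have h : ev (planeE φ).1 (planeE φ).2 = φ := (planeE (A₀ := A₀) (F := F)).left_inv φ
    rw [h]
    rfl
  · rw [Fintype.sum_prod_type]
    refine Finset.sum_congr rfl fun ψ _ => ?_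
    by_cases hQ : Q ψ
    · rw [if_pos hQ, card_ind]
      refine Finset.sum_congr rfl fun z _ => ?_
      simp only [hQ, true_and]
    · rw [if_neg hQ]
      exact Finset.sum_eq_zero fun z _ => if_neg fun h => hQ h.1

theorem card_cyl [Fintype F] (ψ : A₀ →+* F) (P : A₀[X]) :
    (Nat.card {z : F × F // ev ψ z (C P) = 0} : ℝ) =
      (Nat.card F : ℝ) * Nat.card {t : F // eval t (P.map ψ) = 0} := by
  have e : {z : F × F // ev ψ z (C P) = 0} ≃ {t : F // eval t (P.map ψ) = 0} × F :=
    { toFun := fun z => (⟨z.1.1, by rw [eval_map]; rw [← ev_C]; exact z.2⟩, z.1.2)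
      invFun := fun w => ⟨(w.1.1, w.2), by rw [ev_C]; rw [← eval_map]; exact w.1.2⟩
      left_inv := fun z => rfl
      right_inv := fun w => rfl }
  rw [Nat.card_congr e, Nat.card_prod]
  push_cast
  ring

open Classical in
/-- the sum over the members over one point -/
theorem sum_psi [Fintype F] (n : ℕ) (a b : A₀[X][X]) (P : A₀[X]) (ψ : A₀ →+* F)
    (hg : ∀ y, ¬ (eval₂ ψ y (ld n a) = 0 ∧ eval₂ ψ y (ld n b) = 0)) :
    (∑ t : F, if eval t (P.map ψ) ≠ 0 then cntF n F (a.map (mapRingHom ψ) +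
      C (C t) * b.map (mapRingHom ψ)) else 0) =
      (Nat.card F : ℝ) * Nat.card {z : F × F // ev ψ z a = 0 ∧ ev ψ z b = 0} -
        Nat.card {z : F × F // ev ψ z (b * memR a b P) = 0} +
        Nat.card {z : F × F // ev ψ z (C P) = 0} +
        (-((Nat.card {t : F // eval t (P.map ψ) = 0} : ℝ) *
            Nat.card {z : F × F // ev ψ z a = 0 ∧ ev ψ z b = 0}) -
          Nat.card {y : F // eval₂ ψ y (ld n b * infR n a b P) = 0} +
          Nat.card {t : F // eval t (P.map ψ) = 0}) := by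
  have hD : (P.map ψ).natDegree ≤ P.natDegree := natDegree_map_le
  have k1 := fib (fun z : F × F => ev ψ z a) (fun z => ev ψ z b) hD
  have k2 := fib (fun y : F => eval₂ ψ y (ld n a)) (fun y => eval₂ ψ y (ld n b)) hD
  have c1 : (Nat.card {z : F × F // ev ψ z b = 0 ∨
      hm (-(ev ψ z a)) (ev ψ z b) P.natDegree (P.map ψ) = 0} : ℝ) =
      Nat.card {z : F × F // ev ψ z (b * memR a b P) = 0} := by
    congr 1
    refine Nat.card_congr (Equiv.subtypeEquivRight fun z => ?_)
    rw [map_mul, mul_eq_zero, ev_memR]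
  have c2 : (Nat.card {y : F // eval₂ ψ y (ld n b) = 0 ∨
      hm (-(eval₂ ψ y (ld n a))) (eval₂ ψ y (ld n b)) P.natDegree (P.map ψ) = 0} : ℝ) =
      Nat.card {y : F // eval₂ ψ y (ld n b * infR n a b P) = 0} := by
    congr 1
    refine Nat.card_congr (Equiv.subtypeEquivRight fun y => ?_)
    rw [eval₂_mul, mul_eq_zero, ev_infR]
  have c3 : Nat.card {y : F // eval₂ ψ y (ld n a) = 0 ∧ eval₂ ψ y (ld n b) = 0} = 0 := by
    rw [Nat.card_eq_zero]
    exact Or.inl ⟨fun y => hg y.1 y.2⟩
  rw [c1] at k1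
  rw [c2, c3] at k2
  have hr : (Nat.card F : ℝ) - Nat.card {t : F // eval t (P.map ψ) = 0} =
      ∑ t : F, if eval t (P.map ψ) ≠ 0 then (1 : ℝ) else 0 := by
    rw [card_ind, Nat.card_eq_fintype_card, ← Finset.card_univ, Finset.cast_card,
      ← Finset.sum_sub_distrib]
    refine Finset.sum_congr rfl fun t _ => ?_
    by_cases ht : eval t (P.map ψ) = 0
    · rw [if_pos ht, if_neg (fun h => h ht), sub_self]
    · rw [if_neg ht, if_pos ht, sub_zero]
  have h1 : ∀ t : F, (if eval t (P.map ψ) ≠ 0 then cntF n F (a.map (mapRingHom ψ) +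
      C (C t) * b.map (mapRingHom ψ)) else 0) =
      (if eval t (P.map ψ) ≠ 0 then (Nat.card {z : F × F // ev ψ z a + t * ev ψ z b = 0} : ℝ)
        else 0) +
      (if eval t (P.map ψ) ≠ 0 then (Nat.card {y : F // eval₂ ψ y (ld n a) +
        t * eval₂ ψ y (ld n b) = 0} : ℝ) else 0) -
      ((Nat.card F : ℝ) + 1) * (if eval t (P.map ψ) ≠ 0 then (1 : ℝ) else 0) := by
    intro t
    by_cases ht : eval t (P.map ψ) ≠ 0
    · rw [if_pos ht, if_pos ht, if_pos ht, if_pos ht]
      unfold cntF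
      have d1 : Nat.card {z : F × F // evalEval z.1 z.2 (a.map (mapRingHom ψ) +
          C (C t) * b.map (mapRingHom ψ)) = 0} =
          Nat.card {z : F × F // ev ψ z a + t * ev ψ z b = 0} := by
        refine Nat.card_congr (Equiv.subtypeEquivRight fun z => ?_)
        rw [evalEval_add, evalEval_mul, evalEval_C, eval_C, ← ev_eq, ← ev_eq]
      have d2 : Nat.card {y : F // eval y (ld n (a.map (mapRingHom ψ) +
          C (C t) * b.map (mapRingHom ψ))) = 0} =
          Nat.card {y : F // eval₂ ψ y (ld n a) + t * eval₂ ψ y (ld n b) = 0} := by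
        refine Nat.card_congr (Equiv.subtypeEquivRight fun y => ?_)
        rw [ld_add, ld_C_mul, ld_map, ld_map, eval_add, eval_mul, eval_C, eval_map, eval_map]
      rw [d1, d2]
      ring
    · rw [if_neg ht, if_neg ht, if_neg ht, if_neg ht]
      ring
  rw [Finset.sum_congr rfl fun t _ => h1 t, Finset.sum_sub_distrib, Finset.sum_add_distrib, k1, k2,
    ← Finset.mul_sum, ← hr, card_cyl, Nat.card_prod]
  push_cast
  ring

end

end Pool.Agent.K3h71.PP
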