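import Pool.Agent.K3h71.PP.Sum2
import Pool.Agent.K3h82.CP.Nt

/-! Pencils of plane curves: the sum over the points of the line over a ring. -/

set_option autoImplicit false
set_option linter.all false
set_option maxHeartbeats 400000

namespace Pool.Agent.K3h71.PP

open Polynomial Pool.Agent.K3h82.CP Pool.Agent.R410.NG
open Pool.Agent.R410.LW (ev ev_C ev_X ev_eq)

section
variable {A₀ : Type} [CommRing A₀] {F : Type} [Field F]

theorem hom_P (φ : A₀[X] →+* F) (P : A₀[X]) : φ P = eval (φ X) (P.map (φ.comp C)) := by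
  rw [eval_map]
  have h2 : eval₂RingHom (φ.comp C) (φ X) = φ := by
    apply Polynomial.ringHom_ext
    · intro a
      rw [coe_eval₂RingHom, eval₂_C]
      rfl
    · rw [coe_eval₂RingHom, eval₂_X]
  conv_lhs => rw [← h2]
  rw [coe_eval₂RingHom]

open Classical in
theorem sum_all [Fintype F] [Fintype (A₀ →+* F)] [Fintype (A₀[X] →+* F)]
    [Fintype (A₀[X][X] →+* F)] (n : ℕ) (a b : A₀[X][X]) (P : A₀[X]) (Q : (A₀ →+* F) → Prop)
    (hg : ∀ ψ, Q ψ → ∀ y, ¬ (eval₂ ψ y (ld n a) = 0 ∧ eval₂ ψ y (ld n b) = 0))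
    {D E : ℕ} (hD : ∀ ψ, Q ψ → Nat.card {t : F // eval t (P.map ψ) = 0} ≤ D)
    (hE : ∀ ψ, Q ψ → Nat.card {y : F // eval₂ ψ y (ld n b * infR n a b P) = 0} ≤ E) :
    |(∑ φ : A₀[X] →+* F, if Q (φ.comp C) ∧ φ P ≠ 0 then
        cntF n F ((penG a b).map (mapRingHom φ)) else 0) -
      ((Nat.card F : ℝ) * Nat.card {φ : A₀[X][X] →+* F // Q ((φ.comp C).comp C) ∧
          (φ a = 0 ∧ φ b = 0)} -
        Nat.card {φ : A₀[X][X] →+* F // Q ((φ.comp C).comp C) ∧ φ (b * memR a b P) = 0} +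
        Nat.card {φ : A₀[X][X] →+* F // Q ((φ.comp C).comp C) ∧ φ (C P) = 0})| ≤
      (D : ℝ) * Nat.card {φ : A₀[X][X] →+* F // Q ((φ.comp C).comp C) ∧ (φ a = 0 ∧ φ b = 0)} +
        ((D : ℝ) + E) * Nat.card {ψ : A₀ →+* F // Q ψ} := by
  have e0 : (∑ φ : A₀[X] →+* F, if Q (φ.comp C) ∧ φ P ≠ 0 then
        cntF n F ((penG a b).map (mapRingHom φ)) else 0) =
      ∑ ψ : A₀ →+* F, if Q ψ then (∑ t : F, if eval t (P.map ψ) ≠ 0 then
        cntF n F (a.map (mapRingHom ψ) + C (C t) * b.map (mapRingHom ψ)) else 0) else 0 := by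
    refine (Fintype.sum_equiv (polyEquiv (A := A₀) (F := F)) _ (fun w =>
      if Q w.1 ∧ eval w.2 (P.map w.1) ≠ 0 then
        cntF n F (a.map (mapRingHom w.1) + C (C w.2) * b.map (mapRingHom w.1)) else 0)
        fun φ => ?_).trans ?_
    · show _ = if Q (φ.comp C) ∧ eval (φ X) (P.map (φ.comp C)) ≠ 0 then
        cntF n F (a.map (mapRingHom (φ.comp C)) + C (C (φ X)) * b.map (mapRingHom (φ.comp C))) else 0
      rw [← hom_P, ← penG_map]
    · rw [Fintype.sum_prod_type]
      refine Finset.sum_congr rfl fun ψ _ => ?_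
      by_cases hQ : Q ψ
      · rw [if_pos hQ]
        refine Finset.sum_congr rfl fun t _ => ?_
        simp only [hQ, true_and]
      · rw [if_neg hQ]
        exact Finset.sum_eq_zero fun t _ => if_neg fun h => hQ h.1
  rw [e0, card_above Q (fun φ => φ a = 0 ∧ φ b = 0), card_above Q (fun φ => φ (b * memR a b P) = 0),
    card_above Q (fun φ => φ (C P) = 0), card_ind Q, Finset.mul_sum, Finset.mul_sum,
    Finset.mul_sum, ← Finset.sum_sub_distrib, ← Finset.sum_add_distrib, ← Finset.sum_sub_distrib,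
    ← Finset.sum_add_distrib]
  refine (Finset.abs_sum_le_sum_abs _ _).trans (Finset.sum_le_sum fun ψ _ => ?_)
  by_cases hQ : Q ψ
  · rw [if_pos hQ, if_pos hQ, if_pos hQ, if_pos hQ, if_pos hQ, sum_psi n a b P ψ (hg ψ hQ)]
    have hD' : (Nat.card {t : F // eval t (P.map ψ) = 0} : ℝ) ≤ D := by exact_mod_cast hD ψ hQ
    have hE' : (Nat.card {y : F // eval₂ ψ y (ld n b * infR n a b P) = 0} : ℝ) ≤ E := by
      exact_mod_cast hE ψ hQ
    have p1 : (0 : ℝ) ≤ Nat.card {t : F // eval t (P.map ψ) = 0} := Nat.cast_nonneg _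
    have p2 : (0 : ℝ) ≤ Nat.card {y : F // eval₂ ψ y (ld n b * infR n a b P) = 0} :=
      Nat.cast_nonneg _
    have p3 : (0 : ℝ) ≤ Nat.card {z : F × F // ev ψ z a = 0 ∧ ev ψ z b = 0} := Nat.cast_nonneg _
    have p4 := mul_le_mul_of_nonneg_right hD' p3
    have p5 := mul_nonneg p1 p3
    rw [abs_le]
    constructor
    · linarith
    · linarith
  · rw [if_neg hQ, if_neg hQ, if_neg hQ, if_neg hQ, if_neg hQ]
    simp

/-- the number of the zeros of a polynomial over a ring -/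
theorem card_roots_le [Finite F] (ψ : A₀ →+* F) {p : A₀[X]} (h : ψ p.leadingCoeff ≠ 0) :
    Nat.card {y : F // eval₂ ψ y p = 0} ≤ p.natDegree := by
  classical
  have hp : p.map ψ ≠ 0 := by
    intro h0
    apply h
    have h1 := congrArg (fun q => q.coeff p.natDegree) h0
    simp only [coeff_map, coeff_zero] at h1
    exact h1
  have e : {y : F // eval₂ ψ y p = 0} ≃ {y : F // y ∈ (p.map ψ).roots.toFinset} :=
    Equiv.subtypeEquivRight fun y => by
      rw [Multiset.mem_toFinset, mem_roots hp, IsRoot.def, eval_map]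
  rw [Nat.card_congr e, Nat.card_eq_fintype_card, Fintype.card_coe]
  exact (Multiset.toFinset_card_le _).trans ((card_roots' _).trans natDegree_map_le)

end

end Pool.Agent.K3h71.PP
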