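import Pool.Agent.K3h71.PP.Bas
import Pool.Agent.K3h82.CP.Wei

/-! Pencils of plane curves: the Weil bound. -/

set_option autoImplicit false
set_option linter.all false
set_option maxHeartbeats 400000

namespace Pool.Agent.K3h71.PP

open Polynomial Pool.Agent.K3h82.CP

theorem IsPl.coeff_le {R : Type} [CommRing R] {n : ℕ} {f : R[X][X]} (h : IsPl n f) (i : ℕ) :
    (f.coeff i).natDegree ≤ n := by
  by_cases h0 : f.coeff i = 0
  · rw [h0, natDegree_zero]
    exact Nat.zero_le _
  · have := h.tot i h0
    omega

theorem pl_bez {F : Type} [Field F] {n : ℕ} {f : F[X][X]} (hn : 0 < n) (h : IsPl n f)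
    (hirr : Irreducible f) (hnF : ((n : ℕ) : F) ≠ 0) :
    ∃ (A B : F[X][X]) (D : F[X]), A * f + B * derivative f = C D ∧ D ≠ 0 ∧
      D.natDegree ≤ 2 * n * n := by
  have hd0 : derivative f ≠ 0 := by
    intro h0
    have h1 := congrArg (fun p => coeff p (n - 1)) h0
    simp only [coeff_derivative, coeff_zero] at h1
    have h2 := h.monic
    rw [Monic, leadingCoeff, h.deg] at h2
    rw [Nat.sub_add_cancel hn, h2, one_mul] at h1
    have h3 : ((n - 1 : ℕ) : F[X]) + 1 = C ((n : ℕ) : F) := by
      rw [C_eq_natCast]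
      have : n = (n - 1) + 1 := by omega
      conv_rhs => rw [this]
      push_cast
      rfl
    rw [h3, C_eq_zero] at h1
    exact hnF h1
  have hdlt : (derivative f).natDegree < n := by
    have := natDegree_derivative_lt (p := f) (by rw [h.deg]; exact hn.ne')
    rwa [h.deg] at this
  have hnd : ¬ f ∣ derivative f := h.monic.not_dvd_of_natDegree_lt hd0 (by rwa [h.deg])
  have hprim : f.IsPrimitive := h.monic.isPrimitive
  have hirr' := (hprim.irreducible_iff_irreducible_map_fraction_map (K := RatFunc F)).1 hirr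
  have hnd' : ¬ f.map (algebraMap F[X] (RatFunc F)) ∣
      (derivative f).map (algebraMap F[X] (RatFunc F)) := by
    refine (h.monic.map _).not_dvd_of_natDegree_lt ?_ ?_
    · rw [Ne, Polynomial.map_eq_zero_iff (IsFractionRing.injective F[X] (RatFunc F))]
      exact hd0
    · rw [natDegree_map_eq_of_injective (IsFractionRing.injective F[X] (RatFunc F)),
        natDegree_map_eq_of_injective (IsFractionRing.injective F[X] (RatFunc F)), h.deg]
      exact hdlt
  have hcop := (hirr'.coprime_iff_not_dvd).2 hnd'
  have hres := resultant_ne_zero _ _ hcop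
  rw [natDegree_map_eq_of_injective (IsFractionRing.injective F[X] (RatFunc F)),
    natDegree_map_eq_of_injective (IsFractionRing.injective F[X] (RatFunc F)),
    resultant_map_map] at hres
  obtain ⟨p, q, -, -, hpq⟩ := exists_mul_add_mul_eq_C_resultant f (derivative f) le_rfl le_rfl
    (Or.inl (by rw [h.deg]; exact hn.ne'))
  refine ⟨p, q, resultant f (derivative f), ?_, ?_, ?_⟩
  · rw [← hpq]
    ring
  · intro h0
    apply hres
    rw [h0, map_zero]
  · refine (res_deg f (derivative f) f.natDegree (derivative f).natDegree n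
      h.coeff_le ?_).trans ?_
    · intro i
      rw [coeff_derivative]
      have h3 : ((i : ℕ) : F[X]) + 1 = C (((i : ℕ) : F) + 1) := by
        rw [C_add, C_eq_natCast, C_1]
      rw [h3]
      refine (natDegree_mul_le.trans ?_)
      rw [natDegree_C, add_zero]
      exact h.coeff_le _
    · rw [h.deg]
      refine Nat.mul_le_mul_right _ ?_
      omega

/-- **The Weil bound for smooth plane curves.** -/
theorem t_Weil (hI : StmIrr) : StmWeil := by
  intro n hn
  refine ⟨Pool.Agent.R410.PW.WC n n (2 * n * n) + (n + 1), by positivity, ?_⟩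
  intro F _ _ f h hs hnF
  obtain ⟨A, B, D, h1, h2, h3⟩ := pl_bez hn h (hI F n f hn h hs) hnF
  have h4 := Pool.Agent.R410.PW.weil (AlgebraicClosure F) h.monic (by rw [h.deg]; exact hn) h1 h2 h3
    h.coeff_le (hI _ n _ hn (h.map (algebraMap F (AlgebraicClosure F)))
      (hs.map (algebraMap F (AlgebraicClosure F))))
  rw [h.deg] at h4
  have h5 : (({z : F × F | evalEval z.1 z.2 f = 0}.ncard : ℕ) : ℝ) =
      Nat.card {z : F × F // evalEval z.1 z.2 f = 0} := rfl
  rw [h5] at h4
  have h6 : (Nat.card {y : F // eval y (ld n f) = 0} : ℝ) ≤ n := by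
    have hm := ld_monic h
    classical
    have h7 : Nat.card {y : F // eval y (ld n f) = 0} ≤ n := by
      have e1 : Nat.card {y : F // eval y (ld n f) = 0} = (ld n f).roots.toFinset.card := by
        rw [← Nat.card_eq_finsetCard]
        refine Nat.card_congr (Equiv.subtypeEquivRight fun y => ?_)
        rw [Multiset.mem_toFinset, mem_roots hm.1.ne_zero, IsRoot.def]
      rw [e1]
      refine (Multiset.toFinset_card_le _).trans ((card_roots' _).trans ?_)
      rw [hm.2]
    exact_mod_cast h7
  have h8 : (0 : ℝ) ≤ Nat.card {y : F // eval y (ld n f) = 0} := Nat.cast_nonneg _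
  have h9 : (1 : ℝ) ≤ √(Nat.card F : ℝ) := by
    rw [Real.one_le_sqrt]
    exact_mod_cast Nat.card_pos
  have h10 : |(Nat.card {z : F × F // evalEval z.1 z.2 f = 0} : ℝ) +
      Nat.card {y : F // eval y (ld n f) = 0} - Nat.card F - 1| ≤
      |(Nat.card {z : F × F // evalEval z.1 z.2 f = 0} : ℝ) - Nat.card F| + (n + 1) := by
    have e : (Nat.card {z : F × F // evalEval z.1 z.2 f = 0} : ℝ) +
      Nat.card {y : F // eval y (ld n f) = 0} - Nat.card F - 1 =
      ((Nat.card {z : F × F // evalEval z.1 z.2 f = 0} : ℝ) - Nat.card F) +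
        (Nat.card {y : F // eval y (ld n f) = 0} - 1) := by ring
    rw [e]
    refine (abs_add_le _ _).trans (add_le_add le_rfl ?_)
    rw [abs_le]
    constructor <;> linarith
  refine h10.trans ?_
  rw [add_mul]
  refine add_le_add h4 ?_
  exact le_mul_of_one_le_right (by positivity) h9

end Pool.Agent.K3h71.PP
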