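import Pool.Agent.K3h71.PP.Weil
import Pool.Agent.K3h82.CP.Wgt

/-! Pencils of plane curves: the trace of the Frobenius as a weight. -/

set_option autoImplicit false
set_option linter.all false
set_option maxHeartbeats 400000

namespace Pool.Agent.K3h71.PP

open Polynomial Pool.Agent.K3h82.CP Pool.Agent.R410.NG

section
variable {R : Type} [CommRing R] {n : ℕ}

/-- the curve of a family of monic polynomials of degree `n + 1` -/
noncomputable def plOf (n : ℕ) (g : Fin n → R[X]) : R[X][X] :=
  X ^ n + ∑ j : Fin n, C (g j - X ^ (n + 1)) * X ^ (j : ℕ)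

theorem plOf_map {S : Type} [CommRing S] (φ : R →+* S) (g : Fin n → R[X]) :
    (plOf n g).map (mapRingHom φ) = plOf n (fun j => (g j).map φ) := by
  unfold plOf
  rw [Polynomial.map_add, Polynomial.map_pow, Polynomial.map_X, Polynomial.map_sum]
  congr 1
  refine Finset.sum_congr rfl fun j _ => ?_
  rw [Polynomial.map_mul, Polynomial.map_C, Polynomial.map_pow, Polynomial.map_X, coe_mapRingHom,
    Polynomial.map_sub, Polynomial.map_pow, Polynomial.map_X]

/-- the family of monic polynomials -/
noncomputable def tupP (n : ℕ) (G : R[X][X]) (j : Fin n) : R[X] := G.coeff j + X ^ (n + 1)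

theorem plOf_tupP {G : R[X][X]} (h : IsPl n G) : plOf n (tupP n G) = G := by
  have h1 := h.monic.as_sum
  rw [h.deg] at h1
  conv_rhs => rw [h1]
  unfold plOf tupP
  congr 1
  rw [← Fin.sum_univ_eq_sum_range (fun i => C (G.coeff i) * X ^ i) n]
  refine Finset.sum_congr rfl fun j _ => ?_
  rw [add_sub_cancel_right]

theorem tupP_map {S : Type} [CommRing S] (φ : R →+* S) (G : R[X][X]) (j : Fin n) :
    (tupP n G j).map φ = tupP n (G.map (mapRingHom φ)) j := by
  unfold tupP
  rw [Polynomial.map_add, Polynomial.map_pow, Polynomial.map_X, coeff_map, coe_mapRingHom]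

theorem tupP_spec [Nontrivial R] {G : R[X][X]} (h : IsPl n G) (j : Fin n) :
    (tupP n G j).Monic ∧ (tupP n G j).natDegree = n + 1 := by
  unfold tupP
  have h1 : (G.coeff j).natDegree < n + 1 := Nat.lt_succ_of_le (h.coeff_le _)
  have h2 : (G.coeff j).degree < ((X : R[X]) ^ (n + 1)).degree := by
    rw [degree_X_pow]
    exact degree_le_natDegree.trans_lt (by exact_mod_cast h1)
  rw [add_comm]
  refine ⟨(monic_X_pow _).add_of_left h2, ?_⟩
  rw [natDegree_add_eq_left_of_degree_lt h2, natDegree_X_pow]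

end

open Classical in
/-- minus the trace of the Frobenius of the smooth curves -/
noncomputable def wP (n : ℕ) : Wt (Fin n) := fun F _ g =>
  if ((n : ℕ) : F) ≠ 0 ∧ IsPl n (plOf n g) ∧ Smooth n (plOf n g) then
    (Nat.card {z : F × F // evalEval z.1 z.2 (plOf n g) = 0} : ℝ) +
      Nat.card {y : F // eval y (ld n (plOf n g)) = 0} - Nat.card F - 1
  else 0

theorem IsPl.iso {F F' : Type} [Field F] [Field F'] {n : ℕ} {A : F[X][X]} (e : F ≃+* F') :
    IsPl n (A.map (mapRingHom (e : F →+* F'))) ↔ IsPl n A := by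
  constructor
  · intro h
    have h1 := h.map (e.symm : F' →+* F)
    rw [Polynomial.map_map, mapRingHom_comp] at h1
    have h2 : (e.symm : F' →+* F).comp (e : F →+* F') = RingHom.id F := by
      ext x
      simp
    rw [h2, mapRingHom_id, Polynomial.map_id] at h1
    exact h1
  · intro h
    exact h.map _

theorem isWt_wP (hW : StmWeil) {n : ℕ} (hn : 0 < n) :
    ∃ c : ℝ, IsWt (wP n) (fun _ => n + 1) c := by
  obtain ⟨c, hc0, h⟩ := hW n hn
  refine ⟨c, hc0, ?_, ?_⟩
  · intro F F' _ _ e g
    unfold wP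
    have e0 : (plOf n fun j => (g j).map (e : F →+* F')) =
        (plOf n g).map (mapRingHom (e : F →+* F')) := (plOf_map _ _).symm
    rw [e0]
    have e1 : ((n : ℕ) : F') = 0 ↔ ((n : ℕ) : F) = 0 := by
      rw [← map_natCast e, map_eq_zero_iff e e.injective]
    have e2 : Nat.card {z : F' × F' //
        evalEval z.1 z.2 ((plOf n g).map (mapRingHom (e : F →+* F'))) = 0} =
        Nat.card {z : F × F // evalEval z.1 z.2 (plOf n g) = 0} := by
      refine (Nat.card_congr ((Equiv.prodCongr e.toEquiv e.toEquiv).subtypeEquiv fun z => ?_)).symm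
      show evalEval z.1 z.2 (plOf n g) = 0 ↔
        evalEval ((e : F →+* F') z.1) ((e : F →+* F') z.2) _ = 0
      rw [evalEval_iso]
      exact (map_eq_zero_iff (e : F →+* F') e.injective).symm
    have e3 : Nat.card {y : F' // eval y (ld n ((plOf n g).map (mapRingHom (e : F →+* F')))) = 0} =
        Nat.card {y : F // eval y (ld n (plOf n g)) = 0} := by
      refine (Nat.card_congr (e.toEquiv.subtypeEquiv fun y => ?_)).symm
      rw [ld_map]
      show _ ↔ eval ((e : F →+* F') y) _ = 0
      rw [eval_map_apply]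
      exact (map_eq_zero_iff (e : F →+* F') e.injective).symm
    rw [e2, e3, Nat.card_congr e.toEquiv]
    have e4 : (((n : ℕ) : F') ≠ 0 ∧ IsPl n ((plOf n g).map (mapRingHom (e : F →+* F'))) ∧
        Smooth n ((plOf n g).map (mapRingHom (e : F →+* F')))) ↔
        (((n : ℕ) : F) ≠ 0 ∧ IsPl n (plOf n g) ∧ Smooth n (plOf n g)) := by
      rw [Ne, e1, IsPl.iso, Smooth.iso]
    by_cases h1 : ((n : ℕ) : F) ≠ 0 ∧ IsPl n (plOf n g) ∧ Smooth n (plOf n g)
    · rw [if_pos h1, if_pos (e4.2 h1)]
    · rw [if_neg h1, if_neg (fun h2 => h1 (e4.1 h2))]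
  · intro F _ _ g hg
    unfold wP
    split_ifs with h1
    · exact h F _ h1.2.1 h1.2.2 h1.1
    · rw [abs_zero]
      positivity

end Pool.Agent.K3h71.PP
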